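import Pool.Agent.Lib.MP_38d282_an.Density

/-!
# The angular average ('Archimedes') and the measure `ν`
-/

open Real Set MeasureTheory
open scoped ENNReal

namespace Pool.Agent.Lib.MP_38d282_an

/-! ### Wallis -/

lemma wallis_prod (k : ℕ) : ∏ i ∈ Finset.range k, (2 * (i : ℝ) + 1) / (2 * i + 2) =
    ((2 * k).factorial : ℝ) / (4 ^ k * (k.factorial : ℝ) ^ 2) := by
  induction k with
  | zero => simp
  | succ k ih =>
    rw [Finset.prod_range_succ, ih, show 2 * (k + 1) = 2 * k + 1 + 1 by ring,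
      Nat.factorial_succ, Nat.factorial_succ, Nat.factorial_succ]
    have : (k.factorial : ℝ) ≠ 0 := by positivity
    push_cast
    field_simp
    ring

lemma wallis (k : ℕ) : ∫ x in (0 : ℝ)..π / 2, sin x ^ (2 * k) =
    π / 2 * (((2 * k).factorial : ℝ) / (4 ^ k * (k.factorial : ℝ) ^ 2)) := by
  have h1 : ∫ x in (0 : ℝ)..π / 2, sin x ^ (2 * k) = ∫ x in (0 : ℝ)..π / 2, cos x ^ (2 * k) := by
    have := intervalIntegral.integral_comp_sub_left (a := 0) (b := π / 2)
      (fun x => sin x ^ (2 * k)) (π / 2)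
    rw [sub_self, sub_zero] at this
    rw [← this]
    apply intervalIntegral.integral_congr
    intro x _
    simp only
    rw [sin_pi_div_two_sub]
  rw [h1, EulerSine.integral_cos_pow_eq, integral_sin_pow_even, wallis_prod]
  ring

lemma lintegral_sin_pow (k : ℕ) : ∫⁻ x in Ioo (0 : ℝ) (π / 2), ENNReal.ofReal (sin x ^ (2 * k)) =
    ENNReal.ofReal (π / 2 * (((2 * k).factorial : ℝ) / (4 ^ k * (k.factorial : ℝ) ^ 2))) := by
  rw [← wallis, intervalIntegral.integral_of_le (by positivity), restrict_Ioo_eq_restrict_Ioc,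
    ofReal_integral_eq_lintegral_ofReal]
  · apply Continuous.integrableOn_Ioc
    fun_prop
  · apply Filter.Eventually.of_forall
    intro x
    simp only [Pi.zero_apply]
    rw [pow_mul]
    positivity

/-! ### The substitution `s = R sin φ` -/

lemma arcsin_subst {R : ℝ} (hR : 0 < R) (g : ℝ → ℝ≥0∞) :
    ∫⁻ s in Ioo (0 : ℝ) R, g s * ENNReal.ofReal (1 / √(R ^ 2 - s ^ 2)) =
      ∫⁻ φ in Ioo (0 : ℝ) (π / 2), g (R * sin φ) := by
  have himg : (fun φ => R * sin φ) '' Ioo (0 : ℝ) (π / 2) = Ioo 0 R := by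
    apply Subset.antisymm
    · rintro _ ⟨φ, hφ, rfl⟩
      have h1 : 0 < sin φ := sin_pos_of_pos_of_lt_pi hφ.1 (by linarith [hφ.2, pi_pos])
      have h2 : sin φ < 1 := by
        rw [← sin_pi_div_two]
        exact sin_lt_sin_of_lt_of_le_pi_div_two (by linarith [hφ.1, pi_pos]) le_rfl hφ.2
      constructor
      · simp only; positivity
      · simp only; nlinarith
    · intro s hs
      have hs0 : 0 < s / R := div_pos hs.1 hR
      have hs1 : s / R < 1 := (div_lt_one hR).2 hs.2
      refine ⟨arcsin (s / R), ⟨arcsin_pos.2 hs0, arcsin_lt_pi_div_two.2 hs1⟩, ?_⟩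
      simp only
      rw [sin_arcsin (by linarith) hs1.le]
      field_simp
  have h1 := lintegral_image_eq_lintegral_abs_deriv_mul
    (measurableSet_Ioo (a := (0 : ℝ)) (b := π / 2))
    (f := fun φ => R * sin φ) (f' := fun φ => R * cos φ)
    (fun φ _ => ((hasDerivAt_sin φ).const_mul R).hasDerivWithinAt) (by
      intro x hx y hy hxy
      simp only at hxy
      have h2 : sin x = sin y := mul_left_cancel₀ hR.ne' hxy
      exact injOn_sin ⟨by linarith [hx.1, pi_pos], hx.2.le⟩
        ⟨by linarith [hy.1, pi_pos], hy.2.le⟩ h2)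
    (fun s => g s * ENNReal.ofReal (1 / √(R ^ 2 - s ^ 2)))
  rw [himg] at h1
  rw [h1]
  apply setLIntegral_congr_fun measurableSet_Ioo
  intro φ hφ
  have hc : 0 < cos φ := cos_pos_of_mem_Ioo ⟨by linarith [hφ.1, pi_pos], hφ.2⟩
  simp only
  have h3 : R ^ 2 - (R * sin φ) ^ 2 = (R * cos φ) ^ 2 := by
    have := sin_sq_add_cos_sq φ
    linear_combination (-R ^ 2) * this
  rw [h3, sqrt_sq (by positivity), abs_of_pos (by positivity), mul_left_comm,
    ← ENNReal.ofReal_mul (by positivity)]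
  have h4 : R * cos φ * (1 / (R * cos φ)) = 1 := by field_simp
  rw [h4, ENNReal.ofReal_one, mul_one]

/-! ### The double integral -/

/-- the region `r > 0, s > 0, r² + s² < 1` -/
def quarter : Set (ℝ × ℝ) := {p | 0 < p.1 ∧ 0 < p.2 ∧ p.1 ^ 2 + p.2 ^ 2 < 1}

lemma measurableSet_quarter : MeasurableSet quarter := by
  have : IsOpen quarter := by
    have h1 : quarter = {p : ℝ × ℝ | 0 < p.1} ∩ ({p | 0 < p.2} ∩ {p | p.1 ^ 2 + p.2 ^ 2 < 1}) := by
      ext p
      simp [quarter]
    rw [h1]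
    apply IsOpen.inter
    · exact isOpen_lt continuous_const continuous_fst
    · apply IsOpen.inter
      · exact isOpen_lt continuous_const continuous_snd
      · exact isOpen_lt (by fun_prop) continuous_const
  exact this.measurableSet

/-- integrand -/
noncomputable def integrand (f g : ℝ → ℝ≥0∞) (p : ℝ × ℝ) : ℝ≥0∞ :=
  quarter.indicator (fun p => f p.1 * g p.2 * ENNReal.ofReal (1 / √(1 - p.1 ^ 2 - p.2 ^ 2))) p

lemma integrand_measurable {f g : ℝ → ℝ≥0∞} (hf : Measurable f) (hg : Measurable g) :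
    Measurable (integrand f g) := by
  unfold integrand
  apply Measurable.indicator _ measurableSet_quarter
  apply Measurable.mul
  · exact (hf.comp measurable_fst).mul (hg.comp measurable_snd)
  · apply Measurable.ennreal_ofReal
    apply Measurable.div measurable_const
    apply Measurable.sqrt
    fun_prop

lemma integrand_swap (f g : ℝ → ℝ≥0∞) (r s : ℝ) : integrand f g (r, s) = integrand g f (s, r) := by
  unfold integrand
  by_cases h : (r, s) ∈ quarter
  · have h' : (s, r) ∈ quarter := ⟨h.2.1, h.1, by have := h.2.2; simp only at this ⊢; linarith⟩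
    rw [indicator_of_mem h, indicator_of_mem h']
    simp only
    rw [mul_comm (f r), sub_right_comm]
  · have h' : (s, r) ∉ quarter := by
      intro h'
      exact h ⟨h'.2.1, h'.1, by have := h'.2.2; simp only at this ⊢; linarith⟩
    rw [indicator_of_notMem h, indicator_of_notMem h']

lemma lintegral_integrand {f g : ℝ → ℝ≥0∞} (hg : Measurable g) :
    ∫⁻ r, ∫⁻ s, integrand f g (r, s) =
      ∫⁻ r in Ioo (0 : ℝ) 1, f r * ∫⁻ φ in Ioo (0 : ℝ) (π / 2), g (√(1 - r ^ 2) * sin φ) := by
  rw [← lintegral_indicator measurableSet_Ioo]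
  apply lintegral_congr
  intro r
  by_cases hr : r ∈ Ioo (0 : ℝ) 1
  · rw [indicator_of_mem hr]
    have hr1 : 0 < 1 - r ^ 2 := by nlinarith [hr.1, hr.2]
    have hR : 0 < √(1 - r ^ 2) := sqrt_pos.2 hr1
    have hm : Measurable (fun s => g s * ENNReal.ofReal (1 / √(√(1 - r ^ 2) ^ 2 - s ^ 2))) := by
      apply hg.mul
      apply Measurable.ennreal_ofReal
      apply Measurable.div measurable_const
      apply Measurable.sqrt
      fun_prop
    rw [← arcsin_subst hR, ← lintegral_const_mul _ hm, ← lintegral_indicator measurableSet_Ioo]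
    apply lintegral_congr
    intro s
    rw [integrand]
    by_cases hs : s ∈ Ioo (0 : ℝ) √(1 - r ^ 2)
    · have hq : (r, s) ∈ quarter := by
        refine ⟨hr.1, hs.1, ?_⟩
        have := (lt_sqrt hs.1.le).1 hs.2
        simp only
        linarith
      rw [indicator_of_mem hs, indicator_of_mem hq, sq_sqrt hr1.le]
      simp only
      rw [mul_assoc]
    · have hq : (r, s) ∉ quarter := by
        intro hq
        apply hs
        refine ⟨hq.2.1, (lt_sqrt hq.2.1.le).2 ?_⟩
        have := hq.2.2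
        simp only at this
        linarith
      rw [indicator_of_notMem hs, indicator_of_notMem hq]
  · rw [indicator_of_notMem hr]
    have h0 : ∀ s, integrand f g (r, s) = 0 := by
      intro s
      rw [integrand]
      apply indicator_of_notMem
      intro hq
      apply hr
      have h1 := hq.1
      have h2 := hq.2.2
      simp only at h1 h2
      refine ⟨h1, ?_⟩
      nlinarith [sq_nonneg s]
    simp_rw [h0]
    simp

/-- 'Archimedes': symmetry of the surface measure of the sphere. -/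
lemma archimedes {f g : ℝ → ℝ≥0∞} (hf : Measurable f) (hg : Measurable g) :
    ∫⁻ r in Ioo (0 : ℝ) 1, f r * ∫⁻ φ in Ioo (0 : ℝ) (π / 2), g (√(1 - r ^ 2) * sin φ) =
      ∫⁻ s in Ioo (0 : ℝ) 1, g s * ∫⁻ φ in Ioo (0 : ℝ) (π / 2), f (√(1 - s ^ 2) * sin φ) := by
  rw [← lintegral_integrand hg, ← lintegral_integrand hf, lintegral_lintegral_swap
    (f := fun r s => integrand f g (r, s)) (integrand_measurable hf hg).aemeasurable]
  apply lintegral_congr
  intro s
  apply lintegral_congr
  intro r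
  exact integrand_swap f g r s

/-! ### The measure -/

/-- density -/
noncomputable def Phi (r : ℝ) : ℝ≥0∞ := ∫⁻ φ in Ioo (0 : ℝ) (π / 2), Mf (√(1 - r ^ 2) * sin φ)

lemma Phi_measurable : Measurable Phi := by
  unfold Phi
  apply Measurable.lintegral_prod_right'
    (f := fun p : ℝ × ℝ => Mf (√(1 - p.1 ^ 2) * sin p.2))
  apply Mf_measurable.comp
  fun_prop

lemma Phi_mono {r r' : ℝ} (h0 : 0 ≤ r) (hr : r ≤ r') : Phi r ≤ Phi r' := by
  unfold Phi
  apply setLIntegral_mono_ae'  measurableSet_Ioo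
  apply Filter.Eventually.of_forall
  intro φ hφ
  apply Mf_antitone
  have h1 : 0 < sin φ := sin_pos_of_pos_of_lt_pi hφ.1 (by linarith [hφ.2, pi_pos])
  apply mul_le_mul_of_nonneg_right _ h1.le
  apply sqrt_le_sqrt
  nlinarith

/-- The measure `ν`. -/
noncomputable def nu : Measure ℝ := (volume.restrict (Ioo (0 : ℝ) 1)).withDensity Phi

/-- the moments, as real numbers -/
noncomputable def mom (k : ℕ) : ℝ :=
  (exp 1 ^ (k + 1) * (k.factorial : ℝ) / ((k : ℝ) + 1) ^ (k + 1) / 2) *
    (π / 2 * (((2 * k).factorial : ℝ) / (4 ^ k * (k.factorial : ℝ) ^ 2)))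

lemma mom_pos (k : ℕ) : 0 < mom k := by
  unfold mom
  positivity

lemma lintegral_nu (k : ℕ) :
    ∫⁻ r, ENNReal.ofReal (r ^ (2 * k)) ∂nu = ENNReal.ofReal (mom k) := by
  have hf : Measurable (fun r : ℝ => ENNReal.ofReal (r ^ (2 * k))) := by fun_prop
  rw [nu, lintegral_withDensity_eq_lintegral_mul _ Phi_measurable hf]
  have h1 : ∫⁻ r in Ioo (0 : ℝ) 1, (Phi * fun r => ENNReal.ofReal (r ^ (2 * k))) r =
      ∫⁻ r in Ioo (0 : ℝ) 1, ENNReal.ofReal (r ^ (2 * k)) *
        ∫⁻ φ in Ioo (0 : ℝ) (π / 2), Mf (√(1 - r ^ 2) * sin φ) := by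
    apply lintegral_congr
    intro r
    rw [Pi.mul_apply, mul_comm]
    rfl
  rw [h1, archimedes hf Mf_measurable]
  have h2 : ∫⁻ s in Ioo (0 : ℝ) 1, Mf s *
      ∫⁻ φ in Ioo (0 : ℝ) (π / 2), ENNReal.ofReal ((√(1 - s ^ 2) * sin φ) ^ (2 * k)) =
      ∫⁻ s in Ioo (0 : ℝ) 1, (Mf s * ENNReal.ofReal ((1 - s ^ 2) ^ k)) *
        ENNReal.ofReal (π / 2 * (((2 * k).factorial : ℝ) / (4 ^ k * (k.factorial : ℝ) ^ 2))) := by
    apply setLIntegral_congr_fun measurableSet_Ioo
    intro s hs
    have hs1 : 0 ≤ 1 - s ^ 2 := by nlinarith [hs.1, hs.2]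
    simp only
    rw [mul_assoc, ← lintegral_sin_pow]
    congr 1
    rw [← lintegral_const_mul' _ _ (by simp)]
    apply lintegral_congr
    intro φ
    rw [mul_pow, pow_mul (√(1 - s ^ 2)), sq_sqrt hs1, ENNReal.ofReal_mul (by positivity)]
  rw [h2, lintegral_mul_const' _ _ (by simp), radial_moment, ← ENNReal.ofReal_mul (by positivity)]
  rfl

instance : IsFiniteMeasure nu := by
  constructor
  have h := lintegral_nu 0
  simp only [mul_zero, pow_zero, ENNReal.ofReal_one, lintegral_const, one_mul] at h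
  rw [h]
  exact ENNReal.ofReal_lt_top

lemma nu_ae : ∀ᵐ r ∂nu, r ∈ Ico (0 : ℝ) 1 := by
  apply (withDensity_absolutelyContinuous _ _).ae_le
  filter_upwards [ae_restrict_mem measurableSet_Ioo] with r hr
  exact ⟨hr.1.le, hr.2⟩

lemma integral_nu (k : ℕ) : ∫ r, r ^ (2 * k) ∂nu = mom k := by
  rw [integral_eq_lintegral_of_nonneg_ae, lintegral_nu, ENNReal.toReal_ofReal (mom_pos k).le]
  · apply Filter.Eventually.of_forall
    intro r
    simp only [Pi.zero_apply]
    rw [pow_mul]
    positivity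
  · exact (by fun_prop : Measurable (fun r : ℝ => r ^ (2 * k))).aestronglyMeasurable

lemma nu_cell_mono (n j : ℕ) (hj : j + 1 < n) :
    nu (Ico ((j : ℝ) / n) (((j : ℝ) + 1) / n)) ≤
      nu (Ico (((j + 1 : ℕ) : ℝ) / n) ((((j + 1 : ℕ) : ℝ) + 1) / n)) := by
  have hn : (0 : ℝ) < n := by
    have : 0 < n := by omega
    exact_mod_cast this
  have hj' : (j : ℝ) + 2 ≤ n := by
    have : j + 2 ≤ n := by omega
    exact_mod_cast this
  have hform : ∀ S : Set ℝ, MeasurableSet S → nu S = ∫⁻ r, (S ∩ Ioo 0 1).indicator Phi r := by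
    intro S hS
    rw [nu, withDensity_apply _ hS, Measure.restrict_restrict hS,
      lintegral_indicator (hS.inter measurableSet_Ioo)]
  rw [hform _ measurableSet_Ico, hform _ measurableSet_Ico,
    ← lintegral_add_right_eq_self
      ((Ico (((j + 1 : ℕ) : ℝ) / n) ((((j + 1 : ℕ) : ℝ) + 1) / n) ∩ Ioo 0 1).indicator Phi)
      (1 / (n : ℝ))]
  apply lintegral_mono
  intro r
  simp only
  by_cases hr : r ∈ Ico ((j : ℝ) / n) (((j : ℝ) + 1) / n) ∩ Ioo 0 1
  · have hr' : r + 1 / (n : ℝ) ∈
        Ico (((j + 1 : ℕ) : ℝ) / n) ((((j + 1 : ℕ) : ℝ) + 1) / n) ∩ Ioo 0 1 := by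
      obtain ⟨⟨h1, h2⟩, h3, h4⟩ := hr
      have h5 : r + 1 / (n : ℝ) < (((j + 1 : ℕ) : ℝ) + 1) / n := by
        push_cast
        rw [add_div ((j : ℝ) + 1)]
        linarith
      refine ⟨⟨?_, h5⟩, ?_, ?_⟩
      · push_cast
        rw [add_div]
        linarith
      · positivity
      · refine h5.trans_le ?_
        rw [div_le_one hn]
        push_cast
        linarith
    rw [indicator_of_mem hr, indicator_of_mem hr']
    apply Phi_mono hr.2.1.le
    have : 0 < 1 / (n : ℝ) := by positivity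
    linarith
  · rw [indicator_of_notMem hr]
    exact zero_le

end Pool.Agent.Lib.MP_38d282_an
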