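import Mathlib

/-!
# Multiplier sequences: definitions
-/

open Polynomial

namespace Pool.Agent.Lib.MP_38d282_an

/-- All complex zeros of the real polynomial `p` are real.  (The zero polynomial, all of whose
complex 'zeros' would have to be real, does *not* satisfy this.) -/
def RealRooted (p : ℝ[X]) : Prop := ∀ z : ℂ, aeval z p = 0 → z.im = 0

/-- The polynomial `∑ l_k a_k x^k`, where `p = ∑ a_k x^k`. -/
noncomputable def diagOp (l : ℕ → ℝ) (p : ℝ[X]) : ℝ[X] :=
  ∑ k ∈ Finset.range (p.natDegree + 1), C (l k * p.coeff k) * X ^ k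

/-- `l` is a multiplier sequence (of the first kind, in the sense of Pólya and Schur): whenever
`p = ∑ a_k x^k` has only real zeros, so has `∑ l_k a_k x^k`. -/
def IsMultiplierSequence (l : ℕ → ℝ) : Prop := ∀ p : ℝ[X], RealRooted p → RealRooted (diagOp l p)

end Pool.Agent.Lib.MP_38d282_an
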