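import Pool.Agent.Lib.MP_38d282_an.Ineq2

/-!
# The density and its moments
-/

open Real Set MeasureTheory
open scoped ENNReal

namespace Pool.Agent.Lib.MP_38d282_an

/-! ### Strict monotonicity and images -/

lemma t1_strictAnti : StrictAntiOn t1 (Ioi 0) := by
  apply strictAntiOn_of_deriv_neg (convex_Ioi 0)
  · exact fun y hy => (hasDerivAt_t1 hy).continuousAt.continuousWithinAt
  · intro h hh
    rw [interior_Ioi, mem_Ioi] at hh
    rw [(hasDerivAt_t1 hh).deriv]
    have h1 := t1_pos hh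
    have h2 := t2_gt_one hh
    have h3 : 0 < t2 h - 1 := by linarith
    rw [neg_lt_zero]
    positivity

lemma t2_strictMono : StrictMonoOn t2 (Ioi 0) := by
  apply strictMonoOn_of_deriv_pos (convex_Ioi 0)
  · exact fun y hy => (hasDerivAt_t2 hy).continuousAt.continuousWithinAt
  · intro h hh
    rw [interior_Ioi, mem_Ioi] at hh
    rw [(hasDerivAt_t2 hh).deriv]
    have h1 := t1_lt_one hh
    have h2 := t2_gt_one hh
    have h3 : 0 < 1 - t1 h := by linarith
    have h4 : 0 < t2 h := by linarith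
    positivity

lemma uf_strictAnti : StrictAntiOn uf (Ioi 0) := by
  apply strictAntiOn_of_deriv_neg (convex_Ioi 0)
  · exact fun y hy => (hasDerivAt_uf hy).continuousAt.continuousWithinAt
  · intro h hh
    rw [interior_Ioi, mem_Ioi] at hh
    rw [(hasDerivAt_uf hh).deriv]
    have h1 := t1_lt_one hh
    have h2 := t2_gt_one hh
    have h3 : 0 < t2 h - 1 := by linarith
    have h4 : 0 < 1 - t1 h := by linarith
    have h5 := uf_pos hh
    rw [neg_lt_zero]
    positivity

lemma Zf_strictMono : StrictMonoOn Zf (Ioi 0) := by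
  intro x hx y hy hxy
  have h1 := uf_strictAnti hx hy hxy
  apply sqrt_lt_sqrt
  · have := uf_lt_one (mem_Ioi.1 hx)
    linarith
  · linarith

lemma ivt_aux {f : ℝ → ℝ} (hf : ContinuousOn f (Ioi 0)) {a b v : ℝ} (ha : 0 < a) (hb : 0 < b)
    (h1 : f a ≤ v) (h2 : v ≤ f b) : v ∈ f '' Ioi 0 := by
  have hsub : uIcc a b ⊆ Ioi 0 := by
    intro x hx
    rw [mem_uIcc] at hx
    rw [mem_Ioi]
    rcases hx with h | h
    · linarith [h.1]
    · linarith [h.1]
  have h3 := intermediate_value_uIcc (hf.mono hsub)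
  exact image_mono hsub (h3 (mem_uIcc.2 (Or.inl ⟨h1, h2⟩)))

lemma t1_image : t1 '' Ioi 0 = Ioo 0 1 := by
  apply Subset.antisymm
  · rintro _ ⟨h, hh, rfl⟩
    exact ⟨t1_pos hh, t1_lt_one hh⟩
  · intro t ht
    have hlog : log t < 0 := log_neg ht.1 ht.2
    refine ivt_aux (a := -log t) (b := 1 - t) ?_ ?_ ?_ ?_ ?_
    · exact fun y hy => (hasDerivAt_t1 hy).continuousAt.continuousWithinAt
    · linarith
    · linarith [ht.2]
    · have hh : 0 < -log t := by linarith
      rw [t1_eq hh, neg_neg, exp_log ht.1]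
      have := Kf_lt_one hh
      nlinarith [ht.1]
    · have hh : 0 < 1 - t := by linarith [ht.2]
      rw [t1]
      have := Lf_pos hh
      linarith

lemma t2_image : t2 '' Ioi 0 = Ioi 1 := by
  apply Subset.antisymm
  · rintro _ ⟨h, hh, rfl⟩
    exact t2_gt_one hh
  · intro t ht
    rw [mem_Ioi] at ht
    refine ivt_aux (a := (t - 1) / 2) (b := t) ?_ ?_ ?_ ?_ ?_
    · exact fun y hy => (hasDerivAt_t2 hy).continuousAt.continuousWithinAt
    · linarith
    · linarith
    · have hh : 0 < (t - 1) / 2 := by linarith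
      have := t1_lt_one hh
      rw [t1] at this
      rw [t2]
      linarith
    · have hh : 0 < t := by linarith
      have := Lf_pos hh
      rw [t2]
      linarith

lemma Lf_ge_sub_one {h : ℝ} (hh : 0 < h) : h - 1 ≤ Lf h := by
  have h1 := t1_pos hh
  rw [t1] at h1
  linarith

lemma uf_image : Ioo 0 1 ⊆ uf '' Ioi 0 := by
  intro v hv
  have hlog : log v < 0 := log_neg hv.1 hv.2
  refine ivt_aux (a := 1 - log v) (b := 1 - v) ?_ ?_ ?_ ?_ ?_
  · exact fun y hy => (hasDerivAt_uf hy).continuousAt.continuousWithinAt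
  · linarith
  · linarith [hv.2]
  · have hh : 0 < 1 - log v := by linarith
    rw [uf_eq hh]
    have h1 := Kf_lt_one hh
    have h2 := Kf_pos hh
    have h3 : exp (-Lf (1 - log v)) ≤ v := by
      rw [← exp_log hv.1]
      apply exp_le_exp.2
      have := Lf_ge_sub_one hh
      rw [exp_log hv.1]
      linarith
    have h4 := exp_pos (-Lf (1 - log v))
    nlinarith [hv.1]
  · have hh : 0 < 1 - v := by linarith [hv.2]
    rw [uf]
    have h1 : v ≤ t1 (1 - v) := by
      rw [t1]
      have := Lf_pos hh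
      linarith
    have h2 : 1 ≤ exp (1 - t1 (1 - v)) := by
      apply one_le_exp
      have := t1_lt_one hh
      linarith
    have h3 := t1_pos hh
    nlinarith

lemma Zf_image : Zf '' Ioi 0 = Ioo 0 1 := by
  apply Subset.antisymm
  · rintro _ ⟨h, hh, rfl⟩
    exact ⟨Zf_pos hh, Zf_lt_one hh⟩
  · intro z hz
    have h1 : 1 - z ^ 2 ∈ Ioo (0 : ℝ) 1 := by
      constructor
      · nlinarith [hz.1, hz.2]
      · nlinarith [hz.1, hz.2]
    obtain ⟨h, hh, hu⟩ := uf_image h1
    refine ⟨h, hh, ?_⟩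
    rw [Zf, hu, sub_sub_cancel, sqrt_sq hz.1.le]

lemma hasDerivAt_Zf {h : ℝ} (hh : 0 < h) :
    HasDerivAt Zf (uf h * (1 - t1 h) * (t2 h - 1) / h / (2 * Zf h)) h := by
  have hu := (hasDerivAt_uf hh).const_sub 1
  have h1 := hu.sqrt (by have := uf_lt_one hh; linarith)
  refine HasDerivAt.congr_deriv h1 ?_
  rw [Zf, neg_neg]

/-- `Z' G = u`. -/
lemma Zderiv_mul_Gf {h : ℝ} (hh : 0 < h) :
    |uf h * (1 - t1 h) * (t2 h - 1) / h / (2 * Zf h)| * Gf h = uf h := by
  have hZ := Zf_pos hh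
  have ha : 0 < 1 - t1 h := by have := t1_lt_one hh; linarith
  have hb : 0 < t2 h - 1 := by have := t2_gt_one hh; linarith
  have hu := uf_pos hh
  rw [abs_of_nonneg (by positivity), Gf]
  have h3 : h = ((1 - t1 h) + (t2 h - 1)) / 2 := by rw [t1, t2]; ring
  generalize 1 - t1 h = a at *
  generalize t2 h - 1 = b at *
  field_simp
  linarith

/-! ### The function `M` -/

/-- `M(z) = sup {G(h) : h > 0, z ≤ Z(h)}`; thus `M(Z(h)) = G(h)`. -/
noncomputable def Mf (z : ℝ) : ℝ≥0∞ :=
  ⨆ (h : ℝ) (_ : 0 < h) (_ : z ≤ Zf h), ENNReal.ofReal (Gf h)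

lemma Mf_antitone : Antitone Mf := by
  intro z z' hz
  apply iSup_mono
  intro h
  apply iSup_mono
  intro hh
  apply iSup_le
  intro hz'
  exact le_iSup (fun _ : z ≤ Zf h => ENNReal.ofReal (Gf h)) (hz.trans hz')

lemma Mf_measurable : Measurable Mf := Mf_antitone.measurable

lemma Mf_Zf {h : ℝ} (hh : 0 < h) : Mf (Zf h) = ENNReal.ofReal (Gf h) := by
  apply le_antisymm
  · apply iSup_le
    intro h'
    apply iSup_le
    intro hh'
    apply iSup_le
    intro hz
    apply ENNReal.ofReal_le_ofReal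
    exact Gf_antitone (mem_Ioi.2 hh) (mem_Ioi.2 hh')
      ((Zf_strictMono.le_iff_le (mem_Ioi.2 hh) (mem_Ioi.2 hh')).1 hz)
  · exact le_iSup_of_le h (le_iSup_of_le hh (le_iSup_of_le le_rfl le_rfl))

/-! ### The radial moments of `M` -/

lemma gamma_integral (k : ℕ) :
    ∫⁻ t in Ioi (0 : ℝ), ENNReal.ofReal ((t * exp (1 - t)) ^ (k + 1)) =
      ENNReal.ofReal (exp 1 ^ (k + 1) * (k.factorial : ℝ) / ((k : ℝ) + 1) ^ (k + 1)) := by
  have hk : (0 : ℝ) < (k : ℝ) + 1 := by positivity
  have h1 : ∀ t ∈ Ioi (0 : ℝ), (t * exp (1 - t)) ^ (k + 1) =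
      exp 1 ^ (k + 1) * (t ^ (((k : ℝ) + 2) - 1) * exp (-(((k : ℝ) + 1) * t))) := by
    intro t ht
    have h2 : t ^ (((k : ℝ) + 2) - 1) = t ^ (k + 1) := by
      rw [← rpow_natCast]
      congr 1
      push_cast
      ring
    rw [h2, mul_pow, ← exp_nat_mul, ← exp_nat_mul]
    have h3 : exp (((k + 1 : ℕ) : ℝ) * (1 - t)) =
        exp (((k + 1 : ℕ) : ℝ) * 1) * exp (-(((k : ℝ) + 1) * t)) := by
      rw [← exp_add]
      congr 1
      push_cast
      ring
    rw [h3]
    ring
  have hG := Real.integral_rpow_mul_exp_neg_mul_Ioi (a := (k : ℝ) + 2) (r := (k : ℝ) + 1)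
    (by positivity) hk
  have hval : exp 1 ^ (k + 1) * ((1 / ((k : ℝ) + 1)) ^ ((k : ℝ) + 2) * Real.Gamma ((k : ℝ) + 2)) =
      exp 1 ^ (k + 1) * (k.factorial : ℝ) / ((k : ℝ) + 1) ^ (k + 1) := by
    have h4 : Real.Gamma ((k : ℝ) + 2) = ((k + 1).factorial : ℝ) := by
      rw [← Real.Gamma_nat_eq_factorial]
      congr 1
      push_cast
      ring
    have h5 : (1 / ((k : ℝ) + 1)) ^ ((k : ℝ) + 2) = (1 / ((k : ℝ) + 1)) ^ (k + 2) := by
      rw [← rpow_natCast]
      congr 1
      push_cast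
      ring
    rw [h4, h5, Nat.factorial_succ, one_div, inv_pow]
    push_cast
    field_simp
    ring
  have hint : IntegrableOn (fun t : ℝ => (t * exp (1 - t)) ^ (k + 1)) (Ioi 0) := by
    by_contra hcon
    have h6 : ∫ t in Ioi (0 : ℝ), (t * exp (1 - t)) ^ (k + 1) = 0 := integral_undef hcon
    rw [setIntegral_congr_fun measurableSet_Ioi h1, integral_const_mul, hG, hval] at h6
    have h7 : 0 < exp 1 ^ (k + 1) * (k.factorial : ℝ) / ((k : ℝ) + 1) ^ (k + 1) := by positivity
    exact h7.ne' h6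
  rw [← ofReal_integral_eq_lintegral_ofReal hint]
  · rw [setIntegral_congr_fun measurableSet_Ioi h1, integral_const_mul, hG, hval]
  · filter_upwards [ae_restrict_mem measurableSet_Ioi] with t ht
    have : 0 < t := ht
    positivity

lemma radial_moment (k : ℕ) :
    ∫⁻ s in Ioo (0 : ℝ) 1, Mf s * ENNReal.ofReal ((1 - s ^ 2) ^ k) =
      ENNReal.ofReal (exp 1 ^ (k + 1) * (k.factorial : ℝ) / ((k : ℝ) + 1) ^ (k + 1) / 2) := by
  -- change of variables `s = Z h`
  have h1 := lintegral_image_eq_lintegral_abs_deriv_mul (measurableSet_Ioi (a := (0 : ℝ)))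
    (f := Zf) (f' := fun h => uf h * (1 - t1 h) * (t2 h - 1) / h / (2 * Zf h))
    (fun h hh => (hasDerivAt_Zf hh).hasDerivWithinAt) Zf_strictMono.injOn
    (fun s => Mf s * ENNReal.ofReal ((1 - s ^ 2) ^ k))
  rw [Zf_image] at h1
  rw [h1]
  have h2 : ∫⁻ h in Ioi (0 : ℝ), ENNReal.ofReal
      (|uf h * (1 - t1 h) * (t2 h - 1) / h / (2 * Zf h)|) *
      (Mf (Zf h) * ENNReal.ofReal ((1 - Zf h ^ 2) ^ k)) =
      ∫⁻ h in Ioi (0 : ℝ), (ENNReal.ofReal (1 / 2) *
        (ENNReal.ofReal |-(t1 h * (t2 h - 1) / h)| *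
          ENNReal.ofReal ((t1 h * exp (1 - t1 h)) ^ (k + 1))) +
        ENNReal.ofReal (1 / 2) * (ENNReal.ofReal |t2 h * (1 - t1 h) / h| *
          ENNReal.ofReal ((t2 h * exp (1 - t2 h)) ^ (k + 1)))) := by
    apply setLIntegral_congr_fun measurableSet_Ioi
    intro h hh
    rw [mem_Ioi] at hh
    have hu := uf_pos hh
    have ht1 := t1_pos hh
    have hb : 0 < t2 h - 1 := by have := t2_gt_one hh; linarith
    have ha : 0 < 1 - t1 h := by have := t1_lt_one hh; linarith
    have ht2 : 0 < t2 h := by linarith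
    simp only
    rw [Mf_Zf hh, Zf_sq hh, sub_sub_cancel, ← mul_assoc, ← ENNReal.ofReal_mul (abs_nonneg _),
      Zderiv_mul_Gf hh, ← ENNReal.ofReal_mul hu.le, ← uf_eq2 hh,
      ← show uf h = t1 h * exp (1 - t1 h) from rfl,
      ← ENNReal.ofReal_mul (abs_nonneg _), ← ENNReal.ofReal_mul (abs_nonneg _),
      ← ENNReal.ofReal_mul (by norm_num), ← ENNReal.ofReal_mul (by norm_num),
      ← ENNReal.ofReal_add (by positivity) (by positivity)]
    congr 1
    rw [abs_neg, abs_of_nonneg (by positivity), abs_of_nonneg (by positivity)]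
    have h3 : t1 h * (t2 h - 1) + t2 h * (1 - t1 h) = 2 * h := by rw [t1, t2]; ring
    have h4 : uf h * uf h ^ k = uf h ^ (k + 1) := by ring
    rw [h4]
    have h5 : t1 h * (t2 h - 1) / h + t2 h * (1 - t1 h) / h = 2 := by
      rw [← add_div, h3]
      field_simp
    linear_combination (-(1 / 2) * uf h ^ (k + 1)) * h5
  rw [h2]
  -- measurability is not needed thanks to the image formula
  have h3 := lintegral_image_eq_lintegral_abs_deriv_mul (measurableSet_Ioi (a := (0 : ℝ)))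
    (f := t1) (f' := fun h => -(t1 h * (t2 h - 1) / h))
    (fun h hh => (hasDerivAt_t1 hh).hasDerivWithinAt) t1_strictAnti.injOn
    (fun t => ENNReal.ofReal ((t * exp (1 - t)) ^ (k + 1)))
  have h4 := lintegral_image_eq_lintegral_abs_deriv_mul (measurableSet_Ioi (a := (0 : ℝ)))
    (f := t2) (f' := fun h => t2 h * (1 - t1 h) / h)
    (fun h hh => (hasDerivAt_t2 hh).hasDerivWithinAt) t2_strictMono.injOn
    (fun t => ENNReal.ofReal ((t * exp (1 - t)) ^ (k + 1)))
  rw [t1_image] at h3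
  rw [t2_image] at h4
  have hct1 : ContinuousOn t1 (Ioi 0) :=
    fun y hy => (hasDerivAt_t1 hy).continuousAt.continuousWithinAt
  have hct2 : ContinuousOn t2 (Ioi 0) :=
    fun y hy => (hasDerivAt_t2 hy).continuousAt.continuousWithinAt
  have hm : AEMeasurable (fun h => ENNReal.ofReal |-(t1 h * (t2 h - 1) / h)| *
          ENNReal.ofReal ((t1 h * exp (1 - t1 h)) ^ (k + 1))) (volume.restrict (Ioi 0)) := by
    apply AEMeasurable.fun_mul
    · apply AEMeasurable.ennreal_ofReal
      apply ContinuousOn.aemeasurable _ measurableSet_Ioi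
      apply ContinuousOn.abs
      apply ContinuousOn.neg
      apply ContinuousOn.div (hct1.mul (hct2.sub continuousOn_const)) continuousOn_id
      intro x hx
      exact (mem_Ioi.1 hx).ne'
    · apply AEMeasurable.ennreal_ofReal
      apply ContinuousOn.aemeasurable _ measurableSet_Ioi
      apply ContinuousOn.pow
      apply hct1.mul
      exact continuous_exp.comp_continuousOn (continuousOn_const.sub hct1)
  rw [lintegral_add_left' (hm.const_mul _), lintegral_const_mul' _ _ (by simp),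
    lintegral_const_mul' _ _ (by simp), ← h3, ← h4, ← mul_add]
  have h5 : (∫⁻ t in Ioo (0 : ℝ) 1, ENNReal.ofReal ((t * exp (1 - t)) ^ (k + 1))) +
      (∫⁻ t in Ioi (1 : ℝ), ENNReal.ofReal ((t * exp (1 - t)) ^ (k + 1))) =
      ∫⁻ t in Ioi (0 : ℝ), ENNReal.ofReal ((t * exp (1 - t)) ^ (k + 1)) := by
    rw [← Ioc_union_Ioi_eq_Ioi (zero_le_one' ℝ), lintegral_union measurableSet_Ioi
      (by rw [Set.disjoint_left]; intro x hx hx'; exact absurd hx.2 (not_le.2 hx')),
      restrict_Ioo_eq_restrict_Ioc]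
  rw [h5, gamma_integral, ← ENNReal.ofReal_mul (by norm_num)]
  congr 1
  ring

end Pool.Agent.Lib.MP_38d282_an
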