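import Mathlib

/-!
# The one-variable functions and the key inequality
-/

open Real Set

namespace Pool.Agent.Lib.MP_38d282_an

/-- `h coth h - 1` -/
noncomputable def Lf (h : ℝ) : ℝ := h * cosh h / sinh h - 1
noncomputable def t1 (h : ℝ) : ℝ := Lf h + 1 - h
noncomputable def t2 (h : ℝ) : ℝ := Lf h + 1 + h
noncomputable def uf (h : ℝ) : ℝ := t1 h * exp (1 - t1 h)
noncomputable def Zf (h : ℝ) : ℝ := √(1 - uf h)
noncomputable def Gf (h : ℝ) : ℝ := Zf h * (1 / (1 - t1 h) + 1 / (t2 h - 1))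
/-- `h / sinh h` -/
noncomputable def Kf (h : ℝ) : ℝ := h / sinh h

/-! ### Elementary hyperbolic inequalities -/

lemma nonneg_of_hasDerivAt {f g : ℝ → ℝ} (hf : ∀ x, HasDerivAt f (g x) x) (h0 : f 0 = 0)
    (hg : ∀ x, 0 ≤ x → 0 ≤ g x) : ∀ x, 0 ≤ x → 0 ≤ f x := by
  intro x hx
  have hm : MonotoneOn f (Ici 0) := by
    apply monotoneOn_of_deriv_nonneg (convex_Ici 0)
    · exact fun y _ => (hf y).continuousAt.continuousWithinAt
    · exact fun y _ => (hf y).differentiableAt.differentiableWithinAt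
    · intro y hy
      rw [interior_Ici, mem_Ioi] at hy
      rw [(hf y).deriv]
      exact hg y hy.le
  have := hm (mem_Ici.2 le_rfl) (mem_Ici.2 hx) hx
  rwa [h0] at this

lemma f1_nonneg : ∀ h : ℝ, 0 ≤ h → 0 ≤ h * cosh h - sinh h := by
  apply nonneg_of_hasDerivAt (g := fun h => h * sinh h)
  · intro x
    have := ((hasDerivAt_id x).mul (hasDerivAt_cosh x)).sub (hasDerivAt_sinh x)
    refine HasDerivAt.congr_deriv this ?_
    simp
  · simp
  · intro x hx
    exact mul_nonneg hx (sinh_nonneg_iff.2 hx)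

lemma f2_nonneg : ∀ h : ℝ, 0 ≤ h → 0 ≤ (3 + h ^ 2) * sinh h - 3 * h * cosh h := by
  apply nonneg_of_hasDerivAt (g := fun h => h * (h * cosh h - sinh h))
  · intro x
    have := (((hasDerivAt_pow 2 x).const_add 3).mul (hasDerivAt_sinh x)).sub
      (((hasDerivAt_id x).const_mul 3).mul (hasDerivAt_cosh x))
    refine HasDerivAt.congr_deriv this ?_
    simp
    ring
  · simp
  · intro x hx
    exact mul_nonneg hx (f1_nonneg x hx)

lemma f3_nonneg : ∀ h : ℝ, 0 ≤ h →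
    0 ≤ (15 * h + h ^ 3) * cosh h - (15 + 6 * h ^ 2) * sinh h := by
  apply nonneg_of_hasDerivAt (g := fun h => h * ((3 + h ^ 2) * sinh h - 3 * h * cosh h))
  · intro x
    have := ((((hasDerivAt_id x).const_mul 15).add (hasDerivAt_pow 3 x)).mul
      (hasDerivAt_cosh x)).sub
      ((((hasDerivAt_pow 2 x).const_mul 6).const_add 15).mul (hasDerivAt_sinh x))
    refine HasDerivAt.congr_deriv this ?_
    simp
    ring
  · simp
  · intro x hx
    exact mul_nonneg hx (f2_nonneg x hx)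

lemma f4_nonneg : ∀ h : ℝ, 0 ≤ h →
    0 ≤ (105 + 45 * h ^ 2 + h ^ 4) * sinh h - (105 * h + 10 * h ^ 3) * cosh h := by
  apply nonneg_of_hasDerivAt
    (g := fun h => h * ((15 * h + h ^ 3) * cosh h - (15 + 6 * h ^ 2) * sinh h))
  · intro x
    have := (((((hasDerivAt_pow 2 x).const_mul 45).const_add 105).add (hasDerivAt_pow 4 x)).mul
      (hasDerivAt_sinh x)).sub
      ((((hasDerivAt_id x).const_mul 105).add ((hasDerivAt_pow 3 x).const_mul 10)).mul
        (hasDerivAt_cosh x))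
    refine HasDerivAt.congr_deriv this ?_
    simp
    ring
  · simp
  · intro x hx
    exact mul_nonneg hx (f3_nonneg x hx)

lemma f5_nonneg : ∀ h : ℝ, 0 ≤ h →
    0 ≤ (945 * h + 105 * h ^ 3 + h ^ 5) * cosh h - (945 + 420 * h ^ 2 + 15 * h ^ 4) * sinh h := by
  apply nonneg_of_hasDerivAt
    (g := fun h => h * ((105 + 45 * h ^ 2 + h ^ 4) * sinh h - (105 * h + 10 * h ^ 3) * cosh h))
  · intro x
    have := (((((hasDerivAt_id x).const_mul 945).add ((hasDerivAt_pow 3 x).const_mul 105)).add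
      (hasDerivAt_pow 5 x)).mul (hasDerivAt_cosh x)).sub
      (((((hasDerivAt_pow 2 x).const_mul 420).const_add 945).add
        ((hasDerivAt_pow 4 x).const_mul 15)).mul (hasDerivAt_sinh x))
    refine HasDerivAt.congr_deriv this ?_
    simp
    ring
  · simp
  · intro x hx
    exact mul_nonneg hx (f4_nonneg x hx)

lemma s1_nonneg : ∀ h : ℝ, 0 ≤ h → 0 ≤ sinh h - h := by
  intro h hh
  have := self_le_sinh_iff.2 hh
  linarith

lemma c2_nonneg : ∀ h : ℝ, 0 ≤ h → 0 ≤ cosh h - 1 - h ^ 2 / 2 := by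
  apply nonneg_of_hasDerivAt (g := fun h => sinh h - h)
  · intro x
    have := ((hasDerivAt_cosh x).sub_const 1).sub ((hasDerivAt_pow 2 x).div_const 2)
    refine HasDerivAt.congr_deriv this ?_
    simp
  · simp
  · exact s1_nonneg

lemma s3_nonneg : ∀ h : ℝ, 0 ≤ h → 0 ≤ sinh h - h - h ^ 3 / 6 := by
  apply nonneg_of_hasDerivAt (g := fun h => cosh h - 1 - h ^ 2 / 2)
  · intro x
    have := ((hasDerivAt_sinh x).sub (hasDerivAt_id x)).sub ((hasDerivAt_pow 3 x).div_const 6)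
    refine HasDerivAt.congr_deriv this ?_
    simp
    ring
  · simp
  · exact c2_nonneg

lemma c4_nonneg : ∀ h : ℝ, 0 ≤ h → 0 ≤ cosh h - 1 - h ^ 2 / 2 - h ^ 4 / 24 := by
  apply nonneg_of_hasDerivAt (g := fun h => sinh h - h - h ^ 3 / 6)
  · intro x
    have := (((hasDerivAt_cosh x).sub_const 1).sub ((hasDerivAt_pow 2 x).div_const 2)).sub
      ((hasDerivAt_pow 4 x).div_const 24)
    refine HasDerivAt.congr_deriv this ?_
    simp
    ring
  · simp
  · exact s3_nonneg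

lemma s5_nonneg : ∀ h : ℝ, 0 ≤ h → 0 ≤ sinh h - h - h ^ 3 / 6 - h ^ 5 / 120 := by
  apply nonneg_of_hasDerivAt (g := fun h => cosh h - 1 - h ^ 2 / 2 - h ^ 4 / 24)
  · intro x
    have := (((hasDerivAt_sinh x).sub (hasDerivAt_id x)).sub
      ((hasDerivAt_pow 3 x).div_const 6)).sub ((hasDerivAt_pow 5 x).div_const 120)
    refine HasDerivAt.congr_deriv this ?_
    simp
    ring
  · simp
  · exact c4_nonneg

/-! ### Basic facts on the functions -/

section
variable {h : ℝ} (hh : 0 < h)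
include hh

lemma sinh_pos' : 0 < sinh h := sinh_pos_iff.2 hh

lemma Kf_pos : 0 < Kf h := div_pos hh (sinh_pos' hh)

lemma Kf_lt_one : Kf h < 1 := by
  rw [Kf, div_lt_one (sinh_pos' hh)]
  exact self_lt_sinh_iff.2 hh

lemma Kf_sq : Kf h ^ 2 = (1 + Lf h) ^ 2 - h ^ 2 := by
  have hs := sinh_pos' hh
  have h1 : 1 + Lf h = h * cosh h / sinh h := by rw [Lf]; ring
  rw [h1, Kf, div_pow, div_pow]
  field_simp
  rw [cosh_sq]
  ring

lemma Lf_ge : 5 * h ^ 2 / (15 + h ^ 2) ≤ Lf h := by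
  have hs := sinh_pos' hh
  have h3 := f3_nonneg h hh.le
  have h1 : Lf h - 5 * h ^ 2 / (15 + h ^ 2) =
      ((15 * h + h ^ 3) * cosh h - (15 + 6 * h ^ 2) * sinh h) / (sinh h * (15 + h ^ 2)) := by
    rw [Lf]
    field_simp
    ring
  have h2 : 0 ≤ Lf h - 5 * h ^ 2 / (15 + h ^ 2) := by
    rw [h1]
    positivity
  linarith

lemma Lf_pos : 0 < Lf h := by
  have := Lf_ge hh
  have h1 : 0 < 5 * h ^ 2 / (15 + h ^ 2) := by positivity
  linarith

lemma Lf_ge3 : h ^ 2 * (315 + 14 * h ^ 2) / (945 + 105 * h ^ 2 + h ^ 4) ≤ Lf h := by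
  have hs := sinh_pos' hh
  have h5 := f5_nonneg h hh.le
  have h1 : Lf h - h ^ 2 * (315 + 14 * h ^ 2) / (945 + 105 * h ^ 2 + h ^ 4) =
      ((945 * h + 105 * h ^ 3 + h ^ 5) * cosh h - (945 + 420 * h ^ 2 + 15 * h ^ 4) * sinh h) /
        (sinh h * (945 + 105 * h ^ 2 + h ^ 4)) := by
    rw [Lf]
    field_simp
    ring
  have h2 : 0 ≤ Lf h - h ^ 2 * (315 + 14 * h ^ 2) / (945 + 105 * h ^ 2 + h ^ 4) := by
    rw [h1]
    positivity
  linarith

lemma t1_eq : t1 h = Kf h * exp (-h) := by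
  have hs := sinh_pos' hh
  rw [t1, Lf, Kf, ← cosh_sub_sinh]
  field_simp
  ring

lemma t2_eq : t2 h = Kf h * exp h := by
  have hs := sinh_pos' hh
  rw [t2, Lf, Kf, ← cosh_add_sinh]
  field_simp
  ring

lemma t1_mul_t2 : t1 h * t2 h = Kf h ^ 2 := by
  rw [t1_eq hh, t2_eq hh]
  have : exp (-h) * exp h = 1 := by rw [← exp_add]; simp
  linear_combination (Kf h ^ 2) * this

lemma t1_pos : 0 < t1 h := by
  rw [t1_eq hh]
  exact mul_pos (Kf_pos hh) (exp_pos _)

lemma t1_lt_one : t1 h < 1 := by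
  rw [t1_eq hh]
  have h1 := Kf_lt_one hh
  have h2 : exp (-h) < 1 := exp_lt_one_iff.2 (by linarith)
  have h3 := Kf_pos hh
  have h4 := exp_pos (-h)
  nlinarith

lemma t2_gt_one : 1 < t2 h := by
  rw [t2]
  have := Lf_pos hh
  linarith

lemma uf_eq : uf h = Kf h * exp (-Lf h) := by
  rw [uf, t1_eq hh, mul_assoc, ← exp_add]
  congr 2
  rw [← t1_eq hh, t1]
  ring

lemma uf_eq2 : uf h = t2 h * exp (1 - t2 h) := by
  rw [uf_eq hh, t2_eq hh, mul_assoc, ← exp_add]
  congr 2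
  rw [← t2_eq hh, t2]
  ring

lemma uf_pos : 0 < uf h := by
  rw [uf_eq hh]
  exact mul_pos (Kf_pos hh) (exp_pos _)

lemma uf_lt_one : uf h < 1 := by
  rw [uf_eq hh]
  have h1 := Kf_lt_one hh
  have h2 : exp (-Lf h) < 1 := exp_lt_one_iff.2 (by have := Lf_pos hh; linarith)
  have h3 := Kf_pos hh
  have h4 := exp_pos (-Lf h)
  nlinarith

lemma Zf_pos : 0 < Zf h := sqrt_pos.2 (by have := uf_lt_one hh; linarith)

lemma Zf_lt_one : Zf h < 1 := by
  rw [Zf, sqrt_lt' one_pos]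
  have := uf_pos hh
  linarith

lemma Zf_sq : Zf h ^ 2 = 1 - uf h := sq_sqrt (by have := uf_lt_one hh; linarith)

lemma hasDerivAt_Lf : HasDerivAt Lf ((Lf h + 1 - Kf h ^ 2) / h) h := by
  have hs := sinh_pos' hh
  have h1 := (((hasDerivAt_id h).mul (hasDerivAt_cosh h)).div (hasDerivAt_sinh h) hs.ne').sub_const 1
  have h2 : (fun x : ℝ => x * cosh x / sinh x - 1) = Lf := rfl
  refine (HasDerivAt.congr_deriv h1 ?_)
  have h3 := cosh_sq h
  simp only [id, Kf, Lf, Pi.mul_apply]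
  field_simp
  rw [h3]
  ring

lemma hasDerivAt_t1 : HasDerivAt t1 (-(t1 h * (t2 h - 1) / h)) h := by
  have h1 := ((hasDerivAt_Lf hh).add_const 1).sub (hasDerivAt_id h)
  refine (HasDerivAt.congr_deriv h1 ?_)
  rw [← t1_mul_t2 hh]
  have h2 : Lf h = t1 h + h - 1 := by rw [t1]; ring
  rw [h2]
  field_simp
  ring

lemma hasDerivAt_t2 : HasDerivAt t2 (t2 h * (1 - t1 h) / h) h := by
  have h1 := ((hasDerivAt_Lf hh).add_const 1).add (hasDerivAt_id h)
  refine (HasDerivAt.congr_deriv h1 ?_)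
  rw [← t1_mul_t2 hh]
  have h2 : Lf h = t2 h - h - 1 := by rw [t2]; ring
  rw [h2]
  field_simp
  ring

lemma hasDerivAt_uf : HasDerivAt uf (-(uf h * (1 - t1 h) * (t2 h - 1) / h)) h := by
  have h1 := hasDerivAt_t1 hh
  have h2 := h1.mul ((h1.const_sub 1).exp)
  refine (HasDerivAt.congr_deriv h2 ?_)
  rw [uf]
  ring

end

end Pool.Agent.Lib.MP_38d282_an
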