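import Pool.Agent.Lib.MP_38d282_an.Ineq

/-!
# Monotonicity of `Gf`
-/

open Real Set

namespace Pool.Agent.Lib.MP_38d282_an

/-! ### Purely algebraic inequalities -/

/-- (I1), algebraic part -/
lemma alg_I1 {y L : ℝ} (hy : 0 < y) (hL : 5 * y / (15 + y) ≤ L) :
    1 + y / 2 + y ^ 2 / 12 ≤ (1 + L + L ^ 2 / 2) * (1 + y / 6 + y ^ 2 / 120) := by
  have hl : 0 < 5 * y / (15 + y) := by positivity
  set l := 5 * y / (15 + y) with hldef
  have h1 : 1 + l + l ^ 2 / 2 ≤ 1 + L + L ^ 2 / 2 := by nlinarith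
  have h2 : 1 + y / 2 + y ^ 2 / 12 ≤ (1 + l + l ^ 2 / 2) * (1 + y / 6 + y ^ 2 / 120) := by
    have h3 : (1 + l + l ^ 2 / 2) * (1 + y / 6 + y ^ 2 / 120) - (1 + y / 2 + y ^ 2 / 12) =
        (25 / 8 * y ^ 2 + 23 / 24 * y ^ 3 + 17 / 240 * y ^ 4) / (15 + y) ^ 2 := by
      rw [hldef]
      field_simp
      ring
    have h4 : 0 ≤ (25 / 8 * y ^ 2 + 23 / 24 * y ^ 3 + 17 / 240 * y ^ 4) / (15 + y) ^ 2 := by
      positivity
    linarith
  have h5 : 0 ≤ 1 + y / 6 + y ^ 2 / 120 := by positivity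
  exact h2.trans (mul_le_mul_of_nonneg_right h1 h5)

/-- (I2) for `y ≤ 12` -/
lemma alg_I2_small {y L : ℝ} (hy : 0 < y) (hy12 : y ≤ 12)
    (hL : y * (315 + 14 * y) / (945 + 105 * y + y ^ 2) ≤ L) (hLy : L ^ 2 ≤ y) :
    (y - L ^ 2) ^ 2 ≤ (y * (1 - 2 * L) + 3 * L ^ 2 + 2 * L ^ 3) * (y + y ^ 2 / 6) := by
  set l := y * (315 + 14 * y) / (945 + 105 * y + y ^ 2) with hldef
  have hD : 0 < 945 + 105 * y + y ^ 2 := by positivity
  have hl0 : 0 < l := by positivity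
  -- l ≥ 5y/(15+y)
  have hl1 : 5 * y / (15 + y) ≤ l := by
    have h1 : l - 5 * y / (15 + y) = 9 * y ^ 3 / ((945 + 105 * y + y ^ 2) * (15 + y)) := by
      rw [hldef]
      field_simp
      ring
    have h2 : 0 ≤ 9 * y ^ 3 / ((945 + 105 * y + y ^ 2) * (15 + y)) := by positivity
    linarith
  have hll : l ^ 2 ≤ y := by nlinarith
  -- 6 l + 6 l^2 ≥ 2 y
  have hl2 : 2 * y ≤ 6 * l + 6 * l ^ 2 := by
    set m := 5 * y / (15 + y) with hm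
    have hm0 : 0 < m := by positivity
    have h1 : 6 * m + 6 * m ^ 2 - 2 * y = (2 * y ^ 2 * (60 - y)) / (15 + y) ^ 2 := by
      rw [hm]
      field_simp
      ring
    have h2 : 0 ≤ (2 * y ^ 2 * (60 - y)) / (15 + y) ^ 2 := by
      have : 0 ≤ 60 - y := by linarith
      positivity
    nlinarith
  -- F(L) ≥ F(l)
  have hF : (y + y ^ 2 / 6) * (y * (1 - 2 * l) + 3 * l ^ 2 + 2 * l ^ 3) - (y - l ^ 2) ^ 2 ≤
      (y + y ^ 2 / 6) * (y * (1 - 2 * L) + 3 * L ^ 2 + 2 * L ^ 3) - (y - L ^ 2) ^ 2 := by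
    have h1 : ((y + y ^ 2 / 6) * (y * (1 - 2 * L) + 3 * L ^ 2 + 2 * L ^ 3) - (y - L ^ 2) ^ 2) -
        ((y + y ^ 2 / 6) * (y * (1 - 2 * l) + 3 * l ^ 2 + 2 * l ^ 3) - (y - l ^ 2) ^ 2) =
        (L - l) * ((y + y ^ 2 / 6) * (-2 * y + 3 * (L + l) + 2 * (L ^ 2 + L * l + l ^ 2)) +
          (L + l) * (2 * y - L ^ 2 - l ^ 2)) := by ring
    have h2 : 0 ≤ L - l := by linarith
    have h3 : 0 ≤ -2 * y + 3 * (L + l) + 2 * (L ^ 2 + L * l + l ^ 2) := by nlinarith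
    have h4 : 0 ≤ 2 * y - L ^ 2 - l ^ 2 := by linarith
    have h5 : 0 ≤ L + l := by linarith
    have h6 : 0 ≤ (L - l) * ((y + y ^ 2 / 6) * (-2 * y + 3 * (L + l) +
        2 * (L ^ 2 + L * l + l ^ 2)) + (L + l) * (2 * y - L ^ 2 - l ^ 2)) := by positivity
    linarith
  -- F(l) ≥ 0
  have hFl : 0 ≤ (y + y ^ 2 / 6) * (y * (1 - 2 * l) + 3 * l ^ 2 + 2 * l ^ 3) -
      (y - l ^ 2) ^ 2 := by
    have h1 : (y + y ^ 2 / 6) * (y * (1 - 2 * l) + 3 * l ^ 2 + 2 * l ^ 3) - (y - l ^ 2) ^ 2 =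
        y ^ 2 * (88610405625 / 2 * y + 1969120125 / 2 * y ^ 2 + 31255875 * y ^ 3 +
          71541225 / 2 * y ^ 4 + 1351665 / 2 * y ^ 5 - 98147 / 2 * y ^ 6 - 9212 * y ^ 7 -
          1561 / 3 * y ^ 8 - 9 / 2 * y ^ 9) / (945 + 105 * y + y ^ 2) ^ 4 := by
      rw [hldef]
      field_simp
      ring
    rw [h1]
    have h2 : 0 ≤ 71541225 / 2 * y ^ 4 - 98147 / 2 * y ^ 6 - 9212 * y ^ 7 -
          1561 / 3 * y ^ 8 - 9 / 2 * y ^ 9 := by
      have h3 : 71541225 / 2 * y ^ 4 - 98147 / 2 * y ^ 6 - 9212 * y ^ 7 -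
          1561 / 3 * y ^ 8 - 9 / 2 * y ^ 9 = y ^ 4 * (71541225 / 2 - (98147 / 2 * y ^ 2 +
            9212 * y ^ 3 + 1561 / 3 * y ^ 4 + 9 / 2 * y ^ 5)) := by ring
      rw [h3]
      have h4 : y ^ 2 ≤ 12 ^ 2 := pow_le_pow_left₀ hy.le hy12 2
      have h5 : y ^ 3 ≤ 12 ^ 3 := pow_le_pow_left₀ hy.le hy12 3
      have h6 : y ^ 4 ≤ 12 ^ 4 := pow_le_pow_left₀ hy.le hy12 4
      have h7 : y ^ 5 ≤ 12 ^ 5 := pow_le_pow_left₀ hy.le hy12 5
      have h8 : 0 ≤ 71541225 / 2 - (98147 / 2 * y ^ 2 +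
            9212 * y ^ 3 + 1561 / 3 * y ^ 4 + 9 / 2 * y ^ 5) := by
        norm_num at h4 h5 h6 h7
        linarith
      positivity
    have h9 : 0 ≤ 88610405625 / 2 * y + 1969120125 / 2 * y ^ 2 + 31255875 * y ^ 3 +
        1351665 / 2 * y ^ 5 := by positivity
    apply div_nonneg _ (by positivity)
    apply mul_nonneg (by positivity)
    linarith
  linarith

/-- (I2) for `y = h^2 ≥ 12`. -/
lemma alg_I2_large {h L : ℝ} (hh : 0 < h) (hy12 : 12 ≤ h ^ 2)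
    (hK : 0 ≤ (1 + L) ^ 2 - h ^ 2) (hL0 : 0 < L) (hLy : L ^ 2 ≤ h ^ 2) :
    (h ^ 2 - L ^ 2) ^ 2 ≤ (h ^ 2 * (1 - 2 * L) + 3 * L ^ 2 + 2 * L ^ 3) *
      (h ^ 2 + (h ^ 2) ^ 2 / 6) := by
  have hL : h - 1 ≤ L := by
    by_contra hcon
    push Not at hcon
    nlinarith
  have hh3 : 3.46 ≤ h := by nlinarith
  have hM : 1 ≤ h ^ 2 * (1 - 2 * L) + 3 * L ^ 2 + 2 * L ^ 3 := by
    have h1 : h ^ 2 * (1 - 2 * L) + 3 * L ^ 2 + 2 * L ^ 3 =
        1 + ((1 + L) ^ 2 - h ^ 2) * (2 * L - 1) := by ring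
    rw [h1]
    have : 0 ≤ 2 * L - 1 := by linarith
    nlinarith [mul_nonneg hK this]
  have hN : h ^ 2 - L ^ 2 ≤ 2 * h - 1 := by nlinarith
  have hN0 : 0 ≤ h ^ 2 - L ^ 2 := by linarith
  have h2 : (h ^ 2 - L ^ 2) ^ 2 ≤ (2 * h - 1) ^ 2 := pow_le_pow_left₀ hN0 hN 2
  have h3 : (2 * h - 1) ^ 2 ≤ h ^ 2 + (h ^ 2) ^ 2 / 6 := by
    nlinarith [sq_nonneg (h ^ 2 - 12), mul_nonneg (sub_nonneg.2 hy12) (sub_nonneg.2 hh3)]
  have h4 : 0 ≤ h ^ 2 + (h ^ 2) ^ 2 / 6 := by positivity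
  nlinarith

lemma key_I2 {h : ℝ} (hh : 0 < h) :
    (h ^ 2 - Lf h ^ 2) ^ 2 ≤ (h ^ 2 * (1 - 2 * Lf h) + 3 * Lf h ^ 2 + 2 * Lf h ^ 3) *
      (h ^ 2 + (h ^ 2) ^ 2 / 6) := by
  have hL0 := Lf_pos hh
  have hLh : Lf h < h := by
    have := t1_lt_one hh
    rw [t1] at this
    linarith
  have hLy : Lf h ^ 2 ≤ h ^ 2 := pow_le_pow_left₀ hL0.le hLh.le 2
  rcases le_total (h ^ 2) 12 with h12 | h12
  · apply alg_I2_small (by positivity) h12 _ hLy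
    have := Lf_ge3 hh
    convert this using 3
    ring
  · apply alg_I2_large hh h12 _ hL0 hLy
    rw [← Kf_sq hh]
    positivity

lemma key_I1 {h : ℝ} (hh : 0 < h) :
    uf h * (1 + h ^ 2 / 2 + (h ^ 2) ^ 2 / 12) ≤ 1 := by
  have hs := sinh_pos' hh
  have hL0 := Lf_pos hh
  have h1 : 1 + Lf h + Lf h ^ 2 / 2 ≤ exp (Lf h) := quadratic_le_exp_of_nonneg hL0.le
  have h2 : h * (1 + h ^ 2 / 6 + (h ^ 2) ^ 2 / 120) ≤ sinh h := by
    have := s5_nonneg h hh.le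
    nlinarith
  have h3 := alg_I1 (y := h ^ 2) (by positivity) (Lf_ge hh)
  have h4 : uf h * (exp (Lf h) * (sinh h / h)) = 1 := by
    rw [uf_eq hh, Kf]
    have : exp (-Lf h) * exp (Lf h) = 1 := by rw [← exp_add]; simp
    field_simp
    linear_combination this
  have h5 : 1 + h ^ 2 / 2 + (h ^ 2) ^ 2 / 12 ≤ exp (Lf h) * (sinh h / h) := by
    refine h3.trans ?_
    apply mul_le_mul h1 _ (by positivity) (exp_pos _).le
    rw [le_div_iff₀ hh]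
    linarith
  have h6 := mul_le_mul_of_nonneg_left h5 (uf_pos hh).le
  linarith

/-- The square of `Gf`. -/
noncomputable def Gsq (h : ℝ) : ℝ := (1 - uf h) * (2 * h / (h ^ 2 - Lf h ^ 2)) ^ 2

lemma N_pos {h : ℝ} (hh : 0 < h) : 0 < h ^ 2 - Lf h ^ 2 := by
  have hL0 := Lf_pos hh
  have hLh : Lf h < h := by
    have := t1_lt_one hh
    rw [t1] at this
    linarith
  nlinarith

lemma Gf_eq {h : ℝ} (hh : 0 < h) : Gf h = √(Gsq h) := by
  have hN := N_pos hh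
  have h1 : 0 ≤ 1 - uf h := by have := uf_lt_one hh; linarith
  rw [Gsq, sqrt_mul h1, sqrt_sq (by positivity), Gf, Zf]
  congr 1
  have ht1 := t1_lt_one hh
  have ht2 := t2_gt_one hh
  have ha : 1 - t1 h ≠ 0 := by linarith
  have hb : t2 h - 1 ≠ 0 := by linarith
  have h3 : h ^ 2 - Lf h ^ 2 = (1 - t1 h) * (t2 h - 1) := by rw [t1, t2]; ring
  have h4 : 2 * h = (1 - t1 h) + (t2 h - 1) := by rw [t1, t2]; ring
  rw [h3, h4]
  field_simp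
  ring

lemma hasDerivAt_Gsq {h : ℝ} (hh : 0 < h) :
    HasDerivAt Gsq (4 * h / (h ^ 2 - Lf h ^ 2) ^ 3 * (uf h * (h ^ 2 - Lf h ^ 2) ^ 2 -
      2 * (1 - uf h) * (h ^ 2 * (1 - 2 * Lf h) + 3 * Lf h ^ 2 + 2 * Lf h ^ 3))) h := by
  have hN := N_pos hh
  have hu := hasDerivAt_uf hh
  have hL := hasDerivAt_Lf hh
  have h1 := (hu.const_sub 1).mul
    ((((hasDerivAt_id h).const_mul 2).div ((hasDerivAt_pow 2 h).sub (hL.pow 2)) hN.ne').pow 2)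
  refine HasDerivAt.congr_deriv h1 ?_
  simp only [id, Pi.div_apply, Pi.sub_apply, Pi.pow_apply]
  have h3 : (1 - t1 h) * (t2 h - 1) = h ^ 2 - Lf h ^ 2 := by rw [t1, t2]; ring
  have h4 : uf h * (1 - t1 h) * (t2 h - 1) = uf h * (h ^ 2 - Lf h ^ 2) := by
    rw [mul_assoc, h3]
  rw [h4, Kf_sq hh]
  have hh' := hh.ne'
  obtain ⟨N, hNdef⟩ : ∃ N, N = h ^ 2 - Lf h ^ 2 := ⟨_, rfl⟩
  have hN' : N ≠ 0 := by rw [hNdef]; exact hN.ne'
  rw [← hNdef]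
  generalize uf h = u
  generalize hLL : Lf h = L at hNdef
  have h5 : h ^ 2 * (1 - 2 * L) + 3 * L ^ 2 + 2 * L ^ 3 =
    2 * h ^ 2 - 2 * L * (L + 1 - ((1 + L) ^ 2 - h ^ 2)) - N := by rw [hNdef]; ring
  rw [h5]
  simp only [show (2 : ℕ) - 1 = 1 from rfl, pow_one]
  push_cast
  field_simp
  ring

theorem Gf_antitone : AntitoneOn Gf (Ioi 0) := by
  have h1 : AntitoneOn Gsq (Ioi 0) := by
    apply antitoneOn_of_deriv_nonpos (convex_Ioi 0)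
    · exact fun y hy => (hasDerivAt_Gsq hy).continuousAt.continuousWithinAt
    · rw [interior_Ioi]
      exact fun y hy => (hasDerivAt_Gsq hy).differentiableAt.differentiableWithinAt
    · intro h hh
      rw [interior_Ioi, mem_Ioi] at hh
      rw [(hasDerivAt_Gsq hh).deriv]
      have hN := N_pos hh
      have hu0 := uf_pos hh
      have hI1 := key_I1 hh
      have hI2 := key_I2 hh
      set M := h ^ 2 * (1 - 2 * Lf h) + 3 * Lf h ^ 2 + 2 * Lf h ^ 3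
      have hM : 0 ≤ M := by
        by_contra hcon
        push Not at hcon
        have h2 : 0 < h ^ 2 + (h ^ 2) ^ 2 / 6 := by positivity
        have h3 := mul_neg_of_neg_of_pos hcon h2
        have h4 : 0 < (h ^ 2 - Lf h ^ 2) ^ 2 := by positivity
        linarith
      have h5 : uf h * (h ^ 2 - Lf h ^ 2) ^ 2 ≤ 2 * (1 - uf h) * M := by
        calc uf h * (h ^ 2 - Lf h ^ 2) ^ 2 ≤ uf h * (M * (h ^ 2 + (h ^ 2) ^ 2 / 6)) :=
              mul_le_mul_of_nonneg_left hI2 hu0.le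
          _ = 2 * (uf h * (h ^ 2 / 2 + (h ^ 2) ^ 2 / 12)) * M := by ring
          _ ≤ 2 * (1 - uf h) * M := by
              apply mul_le_mul_of_nonneg_right _ hM
              linarith
      apply mul_nonpos_of_nonneg_of_nonpos
      · positivity
      · linarith
  intro x hx y hy hxy
  rw [Gf_eq hx, Gf_eq hy]
  exact sqrt_le_sqrt (h1 hx hy hxy)

end Pool.Agent.Lib.MP_38d282_an
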