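import Mathlib

/-!
# Eneström–Kakeya and a Hermite–Biehler type argument

If `0 ≤ A_0 ≤ … ≤ A_{n-1}`, `A_{n-1} > 0`, `n ≥ 2`, then the polynomial
`∑_k (∑_j A_j C(j,2k)) n^{-2k} w^k` has only real negative zeros.
-/

open Polynomial

namespace Pool.Agent.Lib.MP_38d282_an

lemma abel_sum (B : ℕ → ℝ) (hB : B 0 = 0) (n : ℕ) (z : ℂ) :
    (z - 1) * ∑ j ∈ Finset.range n, (B (j + 1) : ℂ) * z ^ j =
      B n * z ^ n - ∑ j ∈ Finset.range n, ((B (j + 1) - B j : ℝ) : ℂ) * z ^ j := by
  induction n with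
  | zero => simp [hB]
  | succ n ih =>
    rw [Finset.sum_range_succ, mul_add, ih, Finset.sum_range_succ]
    push_cast
    ring

/-- Eneström–Kakeya. -/
lemma kakeya_aux (B : ℕ → ℝ) (hB : B 0 = 0) (n : ℕ) (hn : 1 ≤ n)
    (hmono : ∀ j, j < n → B j ≤ B (j + 1)) (hpos : 0 < B n) {z : ℂ} (hz : 1 < ‖z‖) :
    ∑ j ∈ Finset.range n, (B (j + 1) : ℂ) * z ^ j ≠ 0 := by
  intro h0
  have h1 := abel_sum B hB n z
  rw [h0, mul_zero] at h1
  have h2 : (B n : ℂ) * z ^ n = ∑ j ∈ Finset.range n, ((B (j + 1) - B j : ℝ) : ℂ) * z ^ j := by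
    linear_combination -h1
  have h3 : ‖(B n : ℂ) * z ^ n‖ = B n * ‖z‖ ^ n := by
    rw [norm_mul, norm_pow, Complex.norm_real, Real.norm_eq_abs, abs_of_pos hpos]
  have h4 : ‖∑ j ∈ Finset.range n, ((B (j + 1) - B j : ℝ) : ℂ) * z ^ j‖ ≤
      B n * ‖z‖ ^ (n - 1) := by
    have h5 : ∑ j ∈ Finset.range n, (B (j + 1) - B j) = B n := by
      rw [Finset.sum_range_sub, hB, sub_zero]
    rw [← h5, Finset.sum_mul]
    refine (norm_sum_le _ _).trans (Finset.sum_le_sum ?_)
    intro j hj
    have hj' := Finset.mem_range.1 hj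
    rw [norm_mul, norm_pow, Complex.norm_real, Real.norm_eq_abs,
      abs_of_nonneg (sub_nonneg.2 (hmono j hj'))]
    apply mul_le_mul_of_nonneg_left _ (sub_nonneg.2 (hmono j hj'))
    exact pow_le_pow_right₀ hz.le (by omega)
  rw [← h2, h3] at h4
  have h5 : ‖z‖ ^ (n - 1) < ‖z‖ ^ n := pow_lt_pow_right₀ hz (by omega)
  have h6 := mul_lt_mul_of_pos_left h5 hpos
  linarith

/-- If all zeros of `P` (of positive degree, with real coefficients) have real part `< 1`, then
`P(1+w) + P(1-w) ≠ 0` for `Re w < 0`. -/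
lemma hermite_biehler_aux {P : ℂ[X]} (hdeg : P.natDegree ≠ 0)
    (hreal : ∀ z : ℂ, P.eval ((starRingEnd ℂ) z) = (starRingEnd ℂ) (P.eval z))
    (hroot : ∀ r : ℂ, P.eval r = 0 → r.re < 1) {w : ℂ} (hw : w.re < 0) :
    P.eval (1 + w) + P.eval (1 - w) ≠ 0 := by
  intro h0
  have hP0 : P ≠ 0 := by rintro rfl; simp at hdeg
  have hne : P.eval (1 - w) ≠ 0 := by
    intro h
    have := hroot _ h
    rw [Complex.sub_re, Complex.one_re] at this
    linarith
  have h1 : ‖P.eval (1 + w)‖ = ‖P.eval (1 - w)‖ := by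
    rw [eq_neg_of_add_eq_zero_left h0, norm_neg]
  have h2 : ‖P.eval (1 - w)‖ = ‖P.eval (1 - (starRingEnd ℂ) w)‖ := by
    have : (1 : ℂ) - (starRingEnd ℂ) w = (starRingEnd ℂ) (1 - w) := by simp
    rw [this, hreal, Complex.norm_conj]
  have hne' : P.eval (1 + w) ≠ 0 := by
    rw [← norm_ne_zero_iff, h1, norm_ne_zero_iff]
    exact hne
  rw [h2, (IsAlgClosed.splits P).eval_eq_prod_roots, (IsAlgClosed.splits P).eval_eq_prod_roots,
    norm_mul, norm_mul] at h1
  have hlc : 0 < ‖P.leadingCoeff‖ := norm_pos_iff.2 (leadingCoeff_ne_zero.2 hP0)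
  have h3 := mul_left_cancel₀ hlc.ne' h1
  have hn : ∀ (s : Multiset ℂ) (x : ℂ), ‖(s.map (fun r => x - r)).prod‖ =
      (s.map (fun r => ‖x - r‖)).prod := by
    intro s x
    induction s using Multiset.induction_on with
    | empty => simp
    | cons a s ih => rw [Multiset.map_cons, Multiset.prod_cons, norm_mul, ih,
        Multiset.map_cons, Multiset.prod_cons]
  rw [hn, hn] at h3
  have hroots : P.roots ≠ 0 :=
    Splits.roots_ne_zero (IsAlgClosed.splits P) hdeg
  have h4 : (P.roots.map (fun r => ‖1 + w - r‖)).prod <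
      (P.roots.map (fun r => ‖1 - (starRingEnd ℂ) w - r‖)).prod := by
    apply Multiset.prod_map_lt_prod_map hroots
    · intro r hr
      rw [norm_pos_iff]
      intro h
      have : 1 + w = r := by linear_combination h
      rw [this] at hne'
      exact hne' (mem_roots'.1 hr).2
    · intro r hr
      have hr1 := hroot r (mem_roots'.1 hr).2
      rw [← sq_lt_sq₀ (norm_nonneg _) (norm_nonneg _), Complex.sq_norm, Complex.sq_norm,
        Complex.normSq_apply, Complex.normSq_apply]
      simp only [Complex.sub_re, Complex.add_re, Complex.one_re, Complex.sub_im, Complex.add_im,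
        Complex.one_im, Complex.conj_re, Complex.conj_im]
      nlinarith
  linarith

lemma sum_range_two_mul {M : Type*} [AddCommMonoid M] (g : ℕ → M) (n : ℕ) :
    ∑ m ∈ Finset.range (2 * n), g m = ∑ k ∈ Finset.range n, (g (2 * k) + g (2 * k + 1)) := by
  induction n with
  | zero => simp
  | succ n ih =>
    have : 2 * (n + 1) = 2 * n + 1 + 1 := by ring
    rw [this, Finset.sum_range_succ, Finset.sum_range_succ, ih, Finset.sum_range_succ, add_assoc]

lemma add_pow_even (w : ℂ) (j n : ℕ) (hj : j < n) :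
    (1 + w) ^ j + (1 - w) ^ j =
      2 * ∑ k ∈ Finset.range n, (j.choose (2 * k) : ℂ) * w ^ (2 * k) := by
  have h1 : ∀ x : ℂ, (1 + x) ^ j = ∑ m ∈ Finset.range (2 * n), (j.choose m : ℂ) * x ^ m := by
    intro x
    rw [add_comm, add_pow]
    rw [← Finset.sum_subset (s₁ := Finset.range (j + 1)) (s₂ := Finset.range (2 * n))]
    · apply Finset.sum_congr rfl
      intro m _
      rw [one_pow, mul_one, mul_comm]
    · intro m hm
      rw [Finset.mem_range] at hm ⊢
      omega
    · intro m _ hm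
      rw [Finset.mem_range, not_lt] at hm
      rw [Nat.choose_eq_zero_of_lt (by omega)]
      simp
  rw [sub_eq_add_neg, h1 w, h1 (-w), sum_range_two_mul, sum_range_two_mul, Finset.mul_sum,
    ← Finset.sum_add_distrib]
  apply Finset.sum_congr rfl
  intro k _
  rw [pow_succ, pow_succ, pow_mul, pow_mul, neg_sq]
  ring

/-- the polynomial `q_n` -/
noncomputable def qPoly (n : ℕ) (A : ℕ → ℝ) : ℂ[X] :=
  ∑ k ∈ Finset.range n,
    C (((∑ j ∈ Finset.range n, A j * (j.choose (2 * k) : ℝ)) / (n : ℝ) ^ (2 * k) : ℝ) : ℂ) * X ^ k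

lemma qPoly_coeff (n : ℕ) (A : ℕ → ℝ) (k : ℕ) : (qPoly n A).coeff k =
    (((∑ j ∈ Finset.range n, A j * (j.choose (2 * k) : ℝ)) / (n : ℝ) ^ (2 * k) : ℝ) : ℂ) := by
  rw [qPoly, finsetSum_coeff]
  simp only [coeff_C_mul, coeff_X_pow, mul_ite, mul_one, mul_zero]
  rw [Finset.sum_ite_eq]
  split_ifs with h
  · rfl
  · rw [Finset.mem_range, not_lt] at h
    have : ∑ j ∈ Finset.range n, A j * (j.choose (2 * k) : ℝ) = 0 := by
      apply Finset.sum_eq_zero
      intro j hj
      have := Finset.mem_range.1 hj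
      rw [Nat.choose_eq_zero_of_lt (by omega)]
      simp
    rw [this]
    simp

lemma qPoly_eval (n : ℕ) (hn : 0 < n) (A : ℕ → ℝ) (z : ℂ) :
    2 * (qPoly n A).eval (-z ^ 2) =
      ∑ j ∈ Finset.range n, (A j : ℂ) * (1 + Complex.I * z / n) ^ j +
      ∑ j ∈ Finset.range n, (A j : ℂ) * (1 - Complex.I * z / n) ^ j := by
  have hn' : (n : ℂ) ≠ 0 := by exact_mod_cast hn.ne'
  rw [← Finset.sum_add_distrib]
  have h1 : ∀ j ∈ Finset.range n, (A j : ℂ) * (1 + Complex.I * z / n) ^ j +
      (A j : ℂ) * (1 - Complex.I * z / n) ^ j =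
      ∑ k ∈ Finset.range n,
        2 * ((A j : ℂ) * (j.choose (2 * k) : ℂ) * (Complex.I * z / n) ^ (2 * k)) := by
    intro j hj
    rw [← mul_add, add_pow_even _ j n (Finset.mem_range.1 hj), Finset.mul_sum, Finset.mul_sum]
    apply Finset.sum_congr rfl
    intro k _
    ring
  rw [Finset.sum_congr rfl h1, Finset.sum_comm, qPoly, eval_finsetSum, Finset.mul_sum]
  apply Finset.sum_congr rfl
  intro k _
  rw [eval_mul, eval_C, eval_pow, eval_X, ← Finset.mul_sum, ← Finset.sum_mul]
  push_cast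
  have h2 : (Complex.I * z / n) ^ (2 * k) = (-z ^ 2) ^ k / (n : ℂ) ^ (2 * k) := by
    rw [pow_mul, pow_mul, ← div_pow]
    congr 1
    rw [div_pow, mul_pow, Complex.I_sq]
    ring
  rw [h2]
  ring

theorem qPoly_zeros {n : ℕ} (hn : 2 ≤ n) {A : ℕ → ℝ} (h0 : 0 ≤ A 0)
    (hmono : ∀ j, j + 1 < n → A j ≤ A (j + 1)) (hpos : 0 < A (n - 1)) :
    qPoly n A ≠ 0 ∧ ∀ r, (qPoly n A).eval r = 0 → r.im = 0 ∧ r.re < 0 := by
  -- nonnegativity
  have hnn : ∀ j, j < n → 0 ≤ A j := by
    intro j
    induction j with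
    | zero => intro _; exact h0
    | succ j ih => intro hj; exact (ih (by omega)).trans (hmono j hj)
  have hsum : 0 < ∑ j ∈ Finset.range n, A j := by
    apply Finset.sum_pos' (fun j hj => hnn j (Finset.mem_range.1 hj))
    exact ⟨n - 1, Finset.mem_range.2 (by omega), hpos⟩
  -- value at zero
  have hq0 : (qPoly n A).eval 0 = ((∑ j ∈ Finset.range n, A j : ℝ) : ℂ) := by
    rw [← coeff_zero_eq_eval_zero, qPoly_coeff]
    simp
  have hq0' : (qPoly n A).eval 0 ≠ 0 := by
    rw [hq0]
    exact_mod_cast hsum.ne'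
  refine ⟨fun h => hq0' (by rw [h, eval_zero]), ?_⟩
  -- the polynomial P
  set P : ℂ[X] := ∑ j ∈ Finset.range n, C (A j : ℂ) * X ^ j with hP
  have hPe : ∀ z, P.eval z = ∑ j ∈ Finset.range n, (A j : ℂ) * z ^ j := by
    intro z
    simp [hP, eval_finsetSum]
  have hPr : ∀ z : ℂ, P.eval ((starRingEnd ℂ) z) = (starRingEnd ℂ) (P.eval z) := by
    intro z
    rw [hPe, hPe, map_sum]
    apply Finset.sum_congr rfl
    intro j _
    simp
  have hPc : P.coeff (n - 1) = (A (n - 1) : ℂ) := by
    rw [hP, finsetSum_coeff]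
    simp only [coeff_C_mul, coeff_X_pow, mul_ite, mul_one, mul_zero]
    rw [Finset.sum_ite_eq, if_pos (Finset.mem_range.2 (by omega))]
  have hPd : P.natDegree ≠ 0 := by
    have : n - 1 ≤ P.natDegree := by
      apply le_natDegree_of_ne_zero
      rw [hPc]
      exact_mod_cast hpos.ne'
    omega
  have hProot : ∀ r : ℂ, P.eval r = 0 → r.re < 1 := by
    intro r hr
    have hr1 : ‖r‖ ≤ 1 := by
      by_contra hcon
      push Not at hcon
      set B : ℕ → ℝ := fun j => if j = 0 then 0 else A (j - 1) with hB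
      have hk := kakeya_aux B (by simp [hB]) n (by omega) (by
        intro j hj
        by_cases hj0 : j = 0
        · subst hj0
          simpa [hB] using h0
        · simp only [hB, if_neg hj0, Nat.add_sub_cancel, if_neg (Nat.succ_ne_zero j)]
          have := hmono (j - 1) (by omega)
          rwa [Nat.sub_add_cancel (by omega)] at this) (by
        simp only [hB, if_neg (show n ≠ 0 by omega)]
        exact hpos) hcon
      apply hk
      rw [hPe] at hr
      rw [← hr]
      apply Finset.sum_congr rfl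
      intro j _
      simp [hB]
    have hr2 : r ≠ 1 := by
      rintro rfl
      rw [hPe] at hr
      simp only [one_pow, mul_one] at hr
      have : ((∑ j ∈ Finset.range n, A j : ℝ) : ℂ) = 0 := by
        push_cast
        exact hr
      exact hsum.ne' (by exact_mod_cast this)
    by_contra hcon
    push Not at hcon
    apply hr2
    have h1 : ‖r‖ ^ 2 ≤ 1 := by
      have := norm_nonneg r
      nlinarith
    rw [Complex.sq_norm, Complex.normSq_apply] at h1
    have h2 : r.im = 0 := by nlinarith [sq_nonneg r.im]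
    have h3 : r.re = 1 := by
      rw [h2] at h1
      nlinarith
    apply Complex.ext
    · simpa using h3
    · simpa using h2
  -- key nonvanishing
  have hkey : ∀ z : ℂ, 0 < z.im → (qPoly n A).eval (-z ^ 2) ≠ 0 := by
    intro z hz hcon
    have h1 := qPoly_eval n (by omega) A z
    rw [hcon, mul_zero] at h1
    have hw : (Complex.I * z / n).re < 0 := by
      have : (Complex.I * z / n).re = -z.im / n := by
        rw [show Complex.I * z / n = Complex.I * z / ((n : ℝ) : ℂ) by push_cast; rfl,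
          Complex.div_ofReal_re]
        simp
      rw [this, neg_div, neg_lt_zero]
      have : (0 : ℝ) < n := by
        have : 0 < n := by omega
        exact_mod_cast this
      positivity
    apply hermite_biehler_aux hPd hPr hProot hw
    rw [hPe, hPe]
    exact h1.symm
  intro r hr
  obtain ⟨z, hz⟩ := IsAlgClosed.exists_pow_nat_eq (-r) (n := 2) (by norm_num)
  have hr' : r = -z ^ 2 := by rw [hz, neg_neg]
  rcases lt_trichotomy z.im 0 with h | h | h
  · exfalso
    apply hkey (-z) (by simpa using h)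
    rw [neg_sq, ← hr', hr]
  · have hz0 : z ≠ 0 := by
      intro hz0
      apply hq0'
      have hr0 : r = 0 := by rw [hr', hz0]; simp
      rw [hr0] at hr
      exact hr
    have hzre : z.re ≠ 0 := by
      intro h'
      exact hz0 (Complex.ext h' h)
    rw [hr', pow_two]
    simp only [Complex.neg_im, Complex.mul_im, h, Complex.neg_re, Complex.mul_re]
    refine ⟨by ring, ?_⟩
    have : 0 < z.re * z.re := mul_self_pos.2 hzre
    linarith
  · exfalso
    apply hkey z h
    rw [← hr', hr]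

end Pool.Agent.Lib.MP_38d282_an
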