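import Pool.Agent.Lib.MP_38d282_an.Moment
import Pool.Agent.Lib.MP_38d282_an.Arch

/-!
# `1/(k+1)^{k+1}` is a multiplier sequence
-/

open Polynomial MeasureTheory

namespace Pool.Agent.Lib.MP_38d282_an

lemma gamma_mult_aux : IsMultiplierSequence
    (fun k => (k.factorial : ℝ) / ((2 * k).factorial : ℝ) * mom k) := by
  have h := moment_multiplier nu nu_ae (fun n j hj => nu_cell_mono n j hj)
    (fun k => by rw [integral_nu]; exact mom_pos k)
  simpa only [integral_nu] using h

theorem isMultiplierSequence_gamma :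
    IsMultiplierSequence (fun k => 1 / ((k : ℝ) + 1) ^ (k + 1)) := by
  have hc : (4 / (Real.pi * Real.exp 1)) ≠ 0 := by positivity
  have hr : (4 / Real.exp 1) ≠ 0 := by positivity
  have h := (isMultiplierSequence_geom hc hr).mul gamma_mult_aux
  have h2 : (fun k : ℕ => 1 / ((k : ℝ) + 1) ^ (k + 1)) =
      (fun k : ℕ => (4 / (Real.pi * Real.exp 1) * (4 / Real.exp 1) ^ k) *
        ((k.factorial : ℝ) / ((2 * k).factorial : ℝ) * mom k)) := by
    funext k
    have h3 : (k.factorial : ℝ) ≠ 0 := by positivity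
    have h4 : ((2 * k).factorial : ℝ) ≠ 0 := by positivity
    rw [mom, div_pow, pow_succ (Real.exp 1)]
    have h5 : Real.exp 1 ≠ 0 := Real.exp_ne_zero 1
    have h6 : Real.exp 1 ^ k ≠ 0 := pow_ne_zero _ h5
    field_simp
    norm_num
  rw [h2]
  exact h

theorem isMultiplierSequence_gamma_factorial (m : ℕ) :
    IsMultiplierSequence (fun k => 1 / (((k : ℝ) + 1) ^ (k + 1) * (k.factorial : ℝ) ^ m)) := by
  have h := isMultiplierSequence_gamma.mul (isMultiplierSequence_inv_factorial_pow m)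
  have h2 : (fun k : ℕ => 1 / (((k : ℝ) + 1) ^ (k + 1) * (k.factorial : ℝ) ^ m)) =
      (fun k : ℕ => (1 / ((k : ℝ) + 1) ^ (k + 1)) * (1 / (k.factorial : ℝ) ^ m)) := by
    funext k
    rw [one_div_mul_one_div]
  rw [h2]
  exact h

end Pool.Agent.Lib.MP_38d282_an
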