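import Pool.Agent.Lib.MP_38d282_an.Mult
import Pool.Agent.Lib.MP_38d282_an.Kakeya

/-!
# Moments of 'increasing' measures give multiplier sequences

Let `ν` be a finite measure on `[0,1)` such that `ν[j/n,(j+1)/n) ≤ ν[(j+1)/n,(j+2)/n)`.  Then
`k!/(2k)! ∫ r^{2k} dν` is a multiplier sequence.
-/

open Polynomial Filter Topology MeasureTheory

namespace Pool.Agent.Lib.MP_38d282_an

/-- the cell `[j/n,(j+1)/n)` -/
def cell (n j : ℕ) : Set ℝ := Set.Ico ((j : ℝ) / n) (((j : ℝ) + 1) / n)

lemma measurableSet_cell (n j : ℕ) : MeasurableSet (cell n j) := measurableSet_Ico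

/-- step function approximating `r^{m}/m!` -/
noncomputable def stepFun (n m : ℕ) (r : ℝ) : ℝ := ((⌊(n : ℝ) * r⌋₊.choose m : ℕ) : ℝ) / (n : ℝ) ^ m

lemma mem_cell_iff {n : ℕ} (hn : 0 < n) (j : ℕ) {r : ℝ} (hr : 0 ≤ r) :
    r ∈ cell n j ↔ ⌊(n : ℝ) * r⌋₊ = j := by
  have hn' : (0 : ℝ) < n := by exact_mod_cast hn
  rw [Nat.floor_eq_iff (by positivity), cell, Set.mem_Ico, div_le_iff₀ hn', lt_div_iff₀ hn',
    mul_comm r]

lemma sum_indicator_cell {n : ℕ} (hn : 0 < n) (g : ℕ → ℝ) {r : ℝ} (hr : 0 ≤ r) (hr1 : r < 1) :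
    ∑ j ∈ Finset.range n, (cell n j).indicator (fun _ => g j) r = g ⌊(n : ℝ) * r⌋₊ := by
  have hn' : (0 : ℝ) < n := by exact_mod_cast hn
  rw [Finset.sum_eq_single ⌊(n : ℝ) * r⌋₊]
  · rw [Set.indicator_of_mem ((mem_cell_iff hn _ hr).2 rfl)]
  · intro j _ hj
    apply Set.indicator_of_notMem
    intro h
    exact hj ((mem_cell_iff hn _ hr).1 h).symm
  · intro h
    exfalso
    apply h
    rw [Finset.mem_range, Nat.floor_lt (by positivity)]
    nlinarith

lemma integral_stepFun (ν : Measure ℝ) [IsFiniteMeasure ν] (hν : ∀ᵐ r ∂ν, r ∈ Set.Ico (0 : ℝ) 1)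
    {n : ℕ} (hn : 0 < n) (m : ℕ) :
    ∫ r, stepFun n m r ∂ν =
      (∑ j ∈ Finset.range n, ν.real (cell n j) * (j.choose m : ℝ)) / (n : ℝ) ^ m := by
  have h1 : ∀ᵐ r ∂ν, stepFun n m r = ∑ j ∈ Finset.range n,
      (cell n j).indicator (fun _ => (j.choose m : ℝ) / (n : ℝ) ^ m) r := by
    filter_upwards [hν] with r hr
    rw [sum_indicator_cell hn (fun j => (j.choose m : ℝ) / (n : ℝ) ^ m) hr.1 hr.2, stepFun]
  rw [integral_congr_ae h1, integral_finsetSum, Finset.sum_div]
  · apply Finset.sum_congr rfl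
    intro j _
    rw [integral_indicator_const _ (measurableSet_cell n j), smul_eq_mul, mul_div_assoc]
  · intro j _
    exact (integrable_const _).indicator (measurableSet_cell n j)

lemma stepFun_bound {n : ℕ} (hn : 0 < n) (m : ℕ) {r : ℝ} (hr : 0 ≤ r) (hr1 : r < 1) :
    ‖stepFun n m r‖ ≤ 1 := by
  have hn' : (0 : ℝ) < n := by exact_mod_cast hn
  rw [stepFun, Real.norm_eq_abs, abs_of_nonneg (by positivity), div_le_one (by positivity)]
  have h1 : ⌊(n : ℝ) * r⌋₊ ≤ n := by
    apply Nat.floor_le_of_le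
    nlinarith
  have h2 : ⌊(n : ℝ) * r⌋₊.choose m ≤ n ^ m :=
    (Nat.choose_le_pow _ _).trans (Nat.pow_le_pow_left h1 m)
  exact_mod_cast h2

lemma stepFun_tendsto (m : ℕ) {r : ℝ} (hr : 0 ≤ r) :
    Tendsto (fun n : ℕ => stepFun n m r) atTop (𝓝 (r ^ m / m.factorial)) := by
  have h1 : ∀ n : ℕ, stepFun n m r =
      (∏ i ∈ Finset.range m, (((⌊(n : ℝ) * r⌋₊ : ℕ) : ℝ) - i) / n) / m.factorial := by
    intro n
    rw [stepFun, Nat.cast_choose_eq_descPochhammer_div, descPochhammer_eval_eq_prod_range,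
      Finset.prod_div_distrib, Finset.prod_const, Finset.card_range]
    ring
  simp_rw [h1]
  apply Tendsto.div_const
  have h2 : r ^ m = ∏ _i ∈ Finset.range m, r := by simp
  rw [h2]
  apply tendsto_finsetProd
  intro i _
  have h3 : Tendsto (fun n : ℕ => ((⌊r * (n : ℝ)⌋₊ : ℕ) : ℝ) / (n : ℝ)) atTop (𝓝 r) :=
    (tendsto_nat_floor_mul_div_atTop hr).comp tendsto_natCast_atTop_atTop
  have h4 : Tendsto (fun n : ℕ => (i : ℝ) / (n : ℝ)) atTop (𝓝 0) :=
    tendsto_const_div_atTop_nhds_zero_nat _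
  have h5 := h3.sub h4
  rw [sub_zero] at h5
  apply h5.congr
  intro n
  rw [sub_div, mul_comm r]

lemma stepFun_measurable (n m : ℕ) : Measurable (stepFun n m) := by
  unfold stepFun
  apply Measurable.div_const
  have h1 : Measurable (fun r : ℝ => ⌊(n : ℝ) * r⌋₊) :=
    Nat.measurable_floor.comp (measurable_const.mul measurable_id)
  exact (measurable_from_nat (f := fun j : ℕ => ((j.choose m : ℕ) : ℝ))).comp h1

/-- moments are limits -/
lemma moment_tendsto (ν : Measure ℝ) [IsFiniteMeasure ν] (hν : ∀ᵐ r ∂ν, r ∈ Set.Ico (0 : ℝ) 1)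
    (m : ℕ) :
    Tendsto (fun n : ℕ => (∑ j ∈ Finset.range n, ν.real (cell n j) * (j.choose m : ℝ)) /
      (n : ℝ) ^ m) atTop (𝓝 ((∫ r, r ^ m ∂ν) / m.factorial)) := by
  have h1 : Tendsto (fun n : ℕ => ∫ r, stepFun n m r ∂ν) atTop
      (𝓝 (∫ r, r ^ m / m.factorial ∂ν)) := by
    apply tendsto_integral_filter_of_dominated_convergence (fun _ => (1 : ℝ))
    · exact Eventually.of_forall (fun n => (stepFun_measurable n m).aestronglyMeasurable)
    · filter_upwards [eventually_gt_atTop 0] with n hn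
      filter_upwards [hν] with r hr
      exact stepFun_bound hn m hr.1 hr.2
    · exact integrable_const _
    · filter_upwards [hν] with r hr
      exact stepFun_tendsto m hr.1
  rw [integral_div] at h1
  apply h1.congr'
  filter_upwards [eventually_gt_atTop 0] with n hn
  exact integral_stepFun ν hν hn m

theorem moment_multiplier (ν : Measure ℝ) [IsFiniteMeasure ν]
    (hν : ∀ᵐ r ∂ν, r ∈ Set.Ico (0 : ℝ) 1)
    (hmono : ∀ n j : ℕ, j + 1 < n → ν (cell n j) ≤ ν (cell n (j + 1)))
    (hpos : ∀ k : ℕ, 0 < ∫ r, r ^ (2 * k) ∂ν) :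
    IsMultiplierSequence
      (fun k => (k.factorial : ℝ) / ((2 * k).factorial : ℝ) * ∫ r, r ^ (2 * k) ∂ν) := by
  intro p hp
  have hp0 := hp.ne_zero
  set A : ℕ → ℕ → ℝ := fun n j => ν.real (cell n j) with hA
  have hA0 : ∀ n j, 0 ≤ A n j := fun n j => measureReal_nonneg
  have hAm : ∀ n j, j + 1 < n → A n j ≤ A n (j + 1) := by
    intro n j hj
    exact ENNReal.toReal_mono (measure_ne_top ν _) (hmono n j hj)
  have hAl : ∀ n, 2 ≤ n → 0 < A n (n - 1) := by
    intro n hn
    by_contra hcon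
    have h0 : A n (n - 1) = 0 := le_antisymm (not_lt.1 hcon) (hA0 n _)
    have h1 : ∀ i, i < n → A n (n - 1 - i) = 0 := by
      intro i
      induction i with
      | zero => intro _; simpa using h0
      | succ i ih =>
        intro hi
        have h2 := hAm n (n - 1 - (i + 1)) (by omega)
        rw [show n - 1 - (i + 1) + 1 = n - 1 - i by omega, ih (by omega)] at h2
        exact le_antisymm h2 (hA0 _ _)
    have h2 : ∑ j ∈ Finset.range n, A n j = 0 := by
      rw [← Finset.sum_range_reflect]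
      exact Finset.sum_eq_zero (fun i hi => h1 i (Finset.mem_range.1 hi))
    have h3 := integral_stepFun ν hν (show 0 < n by omega) 0
    simp only [Nat.choose_zero_right, Nat.cast_one, mul_one, pow_zero, div_one] at h3
    rw [show ∑ j ∈ Finset.range n, ν.real (cell n j) = 0 from h2] at h3
    have h4 : ∀ r, stepFun n 0 r = r ^ (2 * 0) := by
      intro r; simp [stepFun]
    simp_rw [h4] at h3
    have := hpos 0
    linarith
  -- the approximating polynomials
  set Q : ℕ → ℂ[X] := fun n => ∑ k ∈ Finset.range (p.natDegree + 1),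
    C ((qPoly (n + 2) (A (n + 2))).coeff k * ((k.factorial : ℂ) * (cx p).coeff k)) * X ^ k with hQ
  have hQs : ∀ n, Q n = 0 ∨ UStable (Q n) := by
    intro n
    obtain ⟨hq0, hqr⟩ := qPoly_zeros (n := n + 2) (by omega) (hA0 (n + 2) 0) (hAm (n + 2))
      (hAl (n + 2) (by omega))
    have hs := schur_comp hq0 hqr hp.uStable
    have heq : Q n = ∑ k ∈ Finset.range ((qPoly (n + 2) (A (n + 2))).natDegree + 1),
        C ((qPoly (n + 2) (A (n + 2))).coeff k * ((k.factorial : ℂ) * (cx p).coeff k)) *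
          X ^ k := by
      ext k
      simp only [hQ]
      rw [finsetSum_coeff, finsetSum_coeff]
      simp only [coeff_C_mul, coeff_X_pow, mul_ite, mul_one, mul_zero]
      rw [Finset.sum_ite_eq, Finset.sum_ite_eq]
      by_cases h1 : k ∈ Finset.range (p.natDegree + 1)
      · rw [if_pos h1]
        by_cases h2 : k ∈ Finset.range ((qPoly (n + 2) (A (n + 2))).natDegree + 1)
        · rw [if_pos h2]
        · rw [if_neg h2]
          rw [Finset.mem_range, not_lt] at h2
          rw [coeff_eq_zero_of_natDegree_lt (by omega), zero_mul]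
      · rw [if_neg h1]
        rw [Finset.mem_range, not_lt] at h1
        have h3 : (cx p).coeff k = 0 :=
          coeff_eq_zero_of_natDegree_lt (by rw [cx_natDegree]; omega)
        rw [h3]
        simp
    rw [heq]
    exact hs
  have hQd : ∀ n, (Q n).natDegree ≤ p.natDegree := by
    intro n
    apply natDegree_sum_le_of_forall_le
    intro k hk
    refine (natDegree_C_mul_X_pow_le _ _).trans ?_
    exact Nat.lt_succ_iff.1 (Finset.mem_range.1 hk)
  set l : ℕ → ℝ :=
    fun k => (k.factorial : ℝ) / ((2 * k).factorial : ℝ) * ∫ r, r ^ (2 * k) ∂ν with hl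
  have hcoef : ∀ k, Tendsto (fun n => (qPoly (n + 2) (A (n + 2))).coeff k) atTop
      (𝓝 ((((∫ r, r ^ (2 * k) ∂ν) / ((2 * k).factorial : ℝ) : ℝ)) : ℂ)) := by
    intro k
    have h1 := (tendsto_add_atTop_iff_nat 2).2 (moment_tendsto ν hν (2 * k))
    have h2 := (Complex.continuous_ofReal.tendsto _).comp h1
    apply h2.congr
    intro n
    rw [qPoly_coeff]
    simp only [Function.comp_apply, hA]
  have hlim : ∀ z : ℂ, Tendsto (fun n => (Q n).eval z) atTop (𝓝 ((cx (diagOp l p)).eval z)) := by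
    intro z
    have h1 : (cx (diagOp l p)).eval z = ∑ k ∈ Finset.range (p.natDegree + 1),
        ((((∫ r, r ^ (2 * k) ∂ν) / ((2 * k).factorial : ℝ) : ℝ)) : ℂ) *
          ((k.factorial : ℂ) * (cx p).coeff k) * z ^ k := by
      rw [cx_eval, diagOp, map_sum]
      apply Finset.sum_congr rfl
      intro k _
      rw [map_mul, aeval_C, map_pow, aeval_X, cx_coeff, hl]
      simp only [Complex.coe_algebraMap]
      push_cast
      ring
    have h2 : ∀ n, (Q n).eval z = ∑ k ∈ Finset.range (p.natDegree + 1),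
        (qPoly (n + 2) (A (n + 2))).coeff k * ((k.factorial : ℂ) * (cx p).coeff k) * z ^ k := by
      intro n
      simp [hQ, eval_finsetSum]
    rw [h1]
    simp_rw [h2]
    apply tendsto_finsetSum
    intro k _
    exact ((hcoef k).mul_const _).mul_const _
  have hfin := uStable_or_zero_of_tendsto hQs hQd hlim
  rcases hfin with h0 | h0
  · exfalso
    have h1 : (cx (diagOp l p)).coeff p.natDegree = 0 := by rw [h0, coeff_zero]
    rw [cx_coeff, diagOp_coeff] at h1
    have h2 : l p.natDegree * p.coeff p.natDegree = 0 := by exact_mod_cast h1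
    rcases mul_eq_zero.1 h2 with h | h
    · have h3 : 0 < l p.natDegree := by
        simp only [hl]
        have := hpos p.natDegree
        positivity
      exact h3.ne' h
    · exact hp0 (leadingCoeff_eq_zero.1 h)
  · exact realRooted_of_uStable h0

end Pool.Agent.Lib.MP_38d282_an
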