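import Mathlib

/-!
# Polynomials without zeros in the open upper half plane

`UStable P` says that the complex polynomial `P` has no zero in the open upper half plane.
We prove three facts:

* `UStable.add_smul_derivative` : stability is preserved by `P ↦ P + c P'`, `Im c ≥ 0`;
* `uStable_or_zero_of_tendsto` : a limit of (bounded degree) stable polynomials is stable or zero;
* `schur_comp` : the Schur composition theorem.
-/

open Polynomial Filter Topology

namespace Pool.Agent.Lib.MP_38d282_an

/-- `P` has no zero in the open upper half plane. -/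
def UStable (P : ℂ[X]) : Prop := ∀ z : ℂ, 0 < z.im → P.eval z ≠ 0

lemma UStable.ne_zero {P : ℂ[X]} (h : UStable P) : P ≠ 0 := by
  rintro rfl
  exact h Complex.I (by simp) (by simp)

/-- Imaginary part of a sum over a multiset. -/
lemma im_multiset_sum_neg (s : Multiset ℂ) (hs : s ≠ 0) (h : ∀ a ∈ s, a.im < 0) :
    s.sum.im < 0 := by
  induction s using Multiset.induction_on with
  | empty => exact absurd rfl hs
  | cons a s ih =>
    rw [Multiset.sum_cons, Complex.add_im]
    have ha : a.im < 0 := h a (Multiset.mem_cons_self a s)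
    by_cases hs0 : s = 0
    · subst hs0; simpa using ha
    · have := ih hs0 (fun b hb => h b (Multiset.mem_cons_of_mem hb))
      linarith

lemma UStable.add_smul_derivative {P : ℂ[X]} (hP : UStable P) {c : ℂ} (hc : 0 ≤ c.im) :
    UStable (P + c • derivative P) := by
  intro z hz h0
  rw [eval_add, eval_smul, smul_eq_mul] at h0
  have hPz := hP z hz
  have hc0 : c ≠ 0 := by
    rintro rfl
    rw [zero_mul, add_zero] at h0
    exact hPz h0
  -- P'/P = -1/c
  have h1 : (derivative P).eval z / P.eval z = -1 / c := by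
    field_simp
    linear_combination h0
  have h2 := (IsAlgClosed.splits P).eval_derivative_div_eval_of_ne_zero hPz
  rw [h1] at h2
  have h3 : 0 ≤ (-1 / c).im := by
    rw [Complex.div_im]
    simp only [Complex.neg_im, Complex.one_im, Complex.neg_re, Complex.one_re, neg_zero, zero_mul,
      zero_div, zero_sub, neg_mul, one_mul]
    have := Complex.normSq_nonneg c
    rw [neg_div, neg_neg]
    positivity
  by_cases hr : P.roots = 0
  · rw [hr] at h2
    simp at h2
    exact hc0 h2
  · have h4 : (Multiset.map (fun x => 1 / (z - x)) P.roots).sum.im < 0 := by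
      apply im_multiset_sum_neg
      · simpa using hr
      · intro a ha
        rw [Multiset.mem_map] at ha
        obtain ⟨r, hr, rfl⟩ := ha
        have hrim : r.im ≤ 0 := by
          by_contra hcon
          push Not at hcon
          exact hP r hcon ((mem_roots'.1 hr).2)
        have hzr : 0 < (z - r).im := by simp; linarith
        rw [Complex.div_im]
        simp only [Complex.one_im, Complex.one_re, zero_mul, zero_div, one_mul, zero_sub]
        have : 0 < Complex.normSq (z - r) := by
          apply Complex.normSq_pos.2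
          intro h
          rw [h] at hzr
          simp at hzr
        rw [neg_lt_zero]
        positivity
    rw [← h2] at h4
    linarith

/-- Comparison of the values of a stable polynomial at two points of the upper half plane. -/
lemma UStable.norm_eval_le {P : ℂ[X]} (hP : P = 0 ∨ UStable P) {n : ℕ} (hn : P.natDegree ≤ n)
    {z w : ℂ} (hz : 0 < z.im) :
    ‖P.eval w‖ ≤ (1 + ‖w - z‖ / z.im) ^ n * ‖P.eval z‖ := by
  rcases hP with rfl | hP
  · simp
  have hK : 1 ≤ 1 + ‖w - z‖ / z.im := by
    have : 0 ≤ ‖w - z‖ / z.im := by positivity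
    linarith
  have key : ∀ s : Multiset ℂ, (∀ r ∈ s, r.im ≤ 0) →
      ‖(s.map (fun r => w - r)).prod‖ ≤ (1 + ‖w - z‖ / z.im) ^ (Multiset.card s) *
        ‖(s.map (fun r => z - r)).prod‖ := by
    intro s
    induction s using Multiset.induction_on with
    | empty => intro _; simp
    | cons a s ih =>
      intro hs
      have ha : a.im ≤ 0 := hs a (Multiset.mem_cons_self a s)
      have ih' := ih (fun b hb => hs b (Multiset.mem_cons_of_mem hb))
      rw [Multiset.map_cons, Multiset.prod_cons, Multiset.map_cons, Multiset.prod_cons,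
        Multiset.card_cons, norm_mul, norm_mul, pow_succ]
      have h1 : ‖w - a‖ ≤ (1 + ‖w - z‖ / z.im) * ‖z - a‖ := by
        have h2 : z.im ≤ ‖z - a‖ := by
          have := Complex.abs_im_le_norm (z - a)
          have h3 : z.im ≤ (z - a).im := by simp; linarith
          exact h3.trans ((le_abs_self _).trans this)
        have h3 : ‖w - a‖ ≤ ‖w - z‖ + ‖z - a‖ := by
          have := norm_add_le (w - z) (z - a)
          simpa using this
        have h4 : ‖w - z‖ ≤ ‖w - z‖ / z.im * ‖z - a‖ := by
          rw [div_mul_eq_mul_div, le_div_iff₀ hz]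
          exact mul_le_mul_of_nonneg_left h2 (norm_nonneg _)
        linarith
      calc ‖w - a‖ * ‖(s.map (fun r => w - r)).prod‖
          ≤ ((1 + ‖w - z‖ / z.im) * ‖z - a‖) * ((1 + ‖w - z‖ / z.im) ^ (Multiset.card s) *
            ‖(s.map (fun r => z - r)).prod‖) := by
            apply mul_le_mul h1 ih' (norm_nonneg _)
            positivity
        _ = _ := by ring
  have hroots : ∀ r ∈ P.roots, r.im ≤ 0 := by
    intro r hr
    by_contra hcon
    push Not at hcon
    exact hP r hcon ((mem_roots'.1 hr).2)
  have hfac : ∀ y : ℂ, P.eval y = P.leadingCoeff * (P.roots.map (fun r => y - r)).prod := by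
    intro y
    exact (IsAlgClosed.splits P).eval_eq_prod_roots y
  rw [hfac w, hfac z, norm_mul, norm_mul]
  have h1 := key P.roots hroots
  have h2 : (1 + ‖w - z‖ / z.im) ^ (Multiset.card P.roots) ≤ (1 + ‖w - z‖ / z.im) ^ n :=
    pow_le_pow_right₀ hK ((card_roots' P).trans hn)
  calc ‖P.leadingCoeff‖ * ‖(P.roots.map (fun r => w - r)).prod‖
      ≤ ‖P.leadingCoeff‖ * ((1 + ‖w - z‖ / z.im) ^ n *
        ‖(P.roots.map (fun r => z - r)).prod‖) := by
        apply mul_le_mul_of_nonneg_left _ (norm_nonneg _)
        exact h1.trans (mul_le_mul_of_nonneg_right h2 (norm_nonneg _))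
    _ = _ := by ring

/-- A limit of stable polynomials of bounded degree is stable or zero. -/
theorem uStable_or_zero_of_tendsto {ι : Type*} {l : Filter ι} [l.NeBot] {Q : ι → ℂ[X]} {P : ℂ[X]}
    {n : ℕ} (hQ : ∀ i, Q i = 0 ∨ UStable (Q i)) (hn : ∀ i, (Q i).natDegree ≤ n)
    (hlim : ∀ z : ℂ, Tendsto (fun i => (Q i).eval z) l (𝓝 (P.eval z))) :
    P = 0 ∨ UStable P := by
  by_contra hcon
  push Not at hcon
  obtain ⟨hP0, hP⟩ := hcon
  simp only [UStable, not_forall, not_not] at hP
  obtain ⟨z, hz, hPz⟩ := hP
  apply hP0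
  have hall : ∀ w : ℂ, P.eval w = 0 := by
    intro w
    have h1 : ‖P.eval w‖ ≤ (1 + ‖w - z‖ / z.im) ^ n * ‖P.eval z‖ := by
      apply le_of_tendsto_of_tendsto (hlim w).norm ((hlim z).norm.const_mul _)
      exact Eventually.of_forall (fun i => UStable.norm_eval_le (hQ i) (hn i) hz)
    rw [hPz, norm_zero, mul_zero] at h1
    exact norm_le_zero_iff.1 h1
  exact Polynomial.funext (fun w => by rw [hall w, eval_zero])

/-- The operator `x D - r` preserves stability when `Im x > 0` and `r < 0`. -/
lemma UStable.smul_derivative_sub {P : ℂ[X]} (hP : UStable P) {x : ℂ} (hx : 0 < x.im) {r : ℝ}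
    (hr : r < 0) : UStable (x • derivative P - (r : ℂ) • P) := by
  have h1 : UStable (P + (x / ((-r : ℝ) : ℂ)) • derivative P) := by
    apply hP.add_smul_derivative
    rw [Complex.div_ofReal_im]
    exact div_nonneg hx.le (by linarith)
  have hr0 : (r : ℂ) ≠ 0 := by exact_mod_cast hr.ne
  have h2 : x • derivative P - (r : ℂ) • P =
      (-(r : ℂ)) • (P + (x / ((-r : ℝ) : ℂ)) • derivative P) := by
    rw [smul_add, smul_smul, sub_eq_add_neg, add_comm, neg_smul]
    congr 2
    push_cast
    field_simp
  rw [h2]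
  intro z hz
  rw [eval_smul, smul_eq_mul]
  exact mul_ne_zero (neg_ne_zero.2 hr0) (h1 z hz)

/-- Apply `q(x D)` to `P`. -/
noncomputable def opQ (x : ℂ) (q P : ℂ[X]) : ℂ[X] :=
  aeval (x • (Polynomial.derivative : ℂ[X] →ₗ[ℂ] ℂ[X])) q P

lemma opQ_stable_of_roots {x : ℂ} (hx : 0 < x.im) (s : Multiset ℂ)
    (hs : ∀ r ∈ s, r.im = 0 ∧ r.re < 0) {P : ℂ[X]} (hP : UStable P) :
    UStable (opQ x (s.map (fun r => X - C r)).prod P) := by
  induction s using Multiset.induction_on with
  | empty => simpa [opQ] using hP
  | cons a s ih =>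
    have ha := hs a (Multiset.mem_cons_self a s)
    have ih' := ih (fun b hb => hs b (Multiset.mem_cons_of_mem hb))
    rw [Multiset.map_cons, Multiset.prod_cons, opQ, map_mul, Module.End.mul_apply]
    have haa : a = ((a.re : ℝ) : ℂ) := by
      apply Complex.ext <;> simp [ha.1]
    have h1 : aeval (x • (Polynomial.derivative : ℂ[X] →ₗ[ℂ] ℂ[X])) (X - C a)
        (aeval (x • (Polynomial.derivative : ℂ[X] →ₗ[ℂ] ℂ[X]))
          (s.map (fun r => X - C r)).prod P) =
        x • derivative (opQ x (s.map (fun r => X - C r)).prod P) -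
          ((a.re : ℝ) : ℂ) • (opQ x (s.map (fun r => X - C r)).prod P) := by
      rw [map_sub, aeval_X, aeval_C, ← haa]
      simp [opQ, Module.algebraMap_end_apply, LinearMap.sub_apply]
    rw [h1]
    exact ih'.smul_derivative_sub hx ha.2

lemma opQ_stable {x : ℂ} (hx : 0 < x.im) {q : ℂ[X]} (hq0 : q ≠ 0)
    (hq : ∀ r, q.eval r = 0 → r.im = 0 ∧ r.re < 0) {P : ℂ[X]} (hP : UStable P) :
    UStable (opQ x q P) := by
  have h1 := opQ_stable_of_roots hx q.roots (fun r hr => hq r (mem_roots'.1 hr).2) hP
  have h2 : opQ x q P = q.leadingCoeff • opQ x (q.roots.map (fun r => X - C r)).prod P := by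
    conv_lhs => rw [(IsAlgClosed.splits q).eq_prod_roots]
    simp only [opQ]
    rw [map_mul, aeval_C, Module.End.mul_apply, Module.algebraMap_end_apply]
  rw [h2]
  intro z hz
  rw [eval_smul, smul_eq_mul]
  exact mul_ne_zero (leadingCoeff_ne_zero.2 hq0) (h1 z hz)

lemma opQ_eval (x : ℂ) (q P : ℂ[X]) (y : ℂ) :
    (opQ x q P).eval y =
      ∑ k ∈ Finset.range (q.natDegree + 1), q.coeff k * (x ^ k * (derivative^[k] P).eval y) := by
  rw [opQ, aeval_eq_sum_range, LinearMap.sum_apply, eval_finsetSum]
  apply Finset.sum_congr rfl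
  intro k _
  rw [LinearMap.smul_apply, eval_smul, smul_eq_mul, _root_.smul_pow, LinearMap.smul_apply, eval_smul,
    smul_eq_mul, Module.End.pow_apply]

/-- The **Schur composition theorem** (complex form).  If `q` has only real negative zeros and
`P` is stable, then `∑ k! b_k a_k x^k` is stable or zero. -/
theorem schur_comp {q P : ℂ[X]} (hq0 : q ≠ 0)
    (hq : ∀ r, q.eval r = 0 → r.im = 0 ∧ r.re < 0) (hP : UStable P) :
    let f : ℂ[X] := ∑ k ∈ Finset.range (q.natDegree + 1),
      C (q.coeff k * ((k.factorial : ℂ) * P.coeff k)) * X ^ k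
    f = 0 ∨ UStable f := by
  intro f
  set F : ℝ → ℂ[X] := fun ε => ∑ k ∈ Finset.range (q.natDegree + 1),
      C (q.coeff k * (derivative^[k] P).eval ((ε : ℂ) * Complex.I)) * X ^ k with hF
  have hlim : ∀ z : ℂ, Tendsto (fun ε : ℝ => (F ε).eval z) (𝓝[>] 0) (𝓝 (f.eval z)) := by
    intro z
    have h1 : ∀ ε : ℝ, (F ε).eval z = ∑ k ∈ Finset.range (q.natDegree + 1),
        q.coeff k * (derivative^[k] P).eval ((ε : ℂ) * Complex.I) * z ^ k := by
      intro ε
      simp [hF, eval_finsetSum]
    have h2 : f.eval z = ∑ k ∈ Finset.range (q.natDegree + 1),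
        q.coeff k * (derivative^[k] P).eval (((0 : ℝ) : ℂ) * Complex.I) * z ^ k := by
      simp only [f, eval_finsetSum]
      apply Finset.sum_congr rfl
      intro k _
      rw [eval_mul, eval_C, eval_pow, eval_X, Complex.ofReal_zero, zero_mul,
        ← coeff_zero_eq_eval_zero, coeff_iterate_derivative, zero_add,
        Nat.descFactorial_self, nsmul_eq_mul]
    rw [h2]
    simp_rw [h1]
    apply tendsto_nhdsWithin_of_tendsto_nhds
    have hc : Continuous (fun ε : ℝ => ∑ k ∈ Finset.range (q.natDegree + 1),
        q.coeff k * (derivative^[k] P).eval ((ε : ℂ) * Complex.I) * z ^ k) := by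
      apply continuous_finsetSum
      intro k _
      apply Continuous.mul _ continuous_const
      apply Continuous.mul continuous_const
      exact (derivative^[k] P).continuous.comp (by fun_prop)
    exact hc.tendsto 0
  -- replace F by a version stable for all indices
  have hev : ∀ᶠ ε in 𝓝[>] (0 : ℝ), F ε = 0 ∨ UStable (F ε) := by
    filter_upwards [self_mem_nhdsWithin] with ε hε
    right
    intro x hx
    have h3 := opQ_stable hx hq0 hq hP ((ε : ℂ) * Complex.I) (by
      simpa using hε)
    rw [opQ_eval] at h3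
    simp only [hF, eval_finsetSum, eval_mul, eval_C, eval_pow, eval_X]
    convert h3 using 2
    ring
  have hdeg : ∀ ε, (F ε).natDegree ≤ q.natDegree := by
    intro ε
    apply natDegree_sum_le_of_forall_le
    intro k hk
    refine (natDegree_C_mul_X_pow_le _ _).trans ?_
    exact Nat.lt_succ_iff.1 (Finset.mem_range.1 hk)
  classical
  have hG : ∀ ε, (if (F ε = 0 ∨ UStable (F ε)) then F ε else 0) = 0 ∨
      UStable (if (F ε = 0 ∨ UStable (F ε)) then F ε else 0) := by
    intro ε
    by_cases h : (F ε = 0 ∨ UStable (F ε))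
    · rw [if_pos h]; exact h
    · rw [if_neg h]; left; rfl
  apply uStable_or_zero_of_tendsto (l := 𝓝[>] (0 : ℝ)) hG (n := q.natDegree)
  · intro ε
    by_cases h : (F ε = 0 ∨ UStable (F ε))
    · rw [if_pos h]; exact hdeg ε
    · rw [if_neg h]; simp
  · intro z
    apply (hlim z).congr'
    filter_upwards [hev] with ε hε
    rw [if_pos hε]

end Pool.Agent.Lib.MP_38d282_an
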