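import Pool.Agent.Lib.MP_38d282_an.Defs
import Pool.Agent.Lib.MP_38d282_an.Stable

/-!
# Multiplier sequences: elementary facts

* products and rescalings of multiplier sequences,
* `1/k!` is a multiplier sequence.
-/

open Polynomial Filter Topology

namespace Pool.Agent.Lib.MP_38d282_an

/-- complexification -/
noncomputable def cx (p : ℝ[X]) : ℂ[X] := p.map (algebraMap ℝ ℂ)

lemma cx_eval (p : ℝ[X]) (z : ℂ) : (cx p).eval z = aeval z p := by
  rw [cx, aeval_def, eval₂_eq_eval_map]

lemma cx_coeff (p : ℝ[X]) (k : ℕ) : (cx p).coeff k = ((p.coeff k : ℝ) : ℂ) := by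
  simp [cx]

lemma cx_natDegree (p : ℝ[X]) : (cx p).natDegree = p.natDegree := by
  simp [cx]

lemma aeval_conj' (p : ℝ[X]) (z : ℂ) :
    aeval ((starRingEnd ℂ) z) p = (starRingEnd ℂ) (aeval z p) := by
  simp [Polynomial.aeval_conj]

lemma RealRooted.uStable {p : ℝ[X]} (h : RealRooted p) : UStable (cx p) := by
  intro z hz h0
  rw [cx_eval] at h0
  exact hz.ne' (h z h0)

lemma realRooted_of_uStable {p : ℝ[X]} (h : UStable (cx p)) : RealRooted p := by
  intro z hz
  by_contra hne
  rcases lt_or_gt_of_ne hne with h1 | h1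
  · apply h ((starRingEnd ℂ) z) (by simpa using h1)
    rw [cx_eval, aeval_conj', hz, map_zero]
  · apply h z h1
    rw [cx_eval, hz]

lemma RealRooted.ne_zero {p : ℝ[X]} (h : RealRooted p) : p ≠ 0 := by
  rintro rfl
  have := h Complex.I (by simp)
  simp at this

lemma diagOp_coeff (l : ℕ → ℝ) (p : ℝ[X]) (k : ℕ) : (diagOp l p).coeff k = l k * p.coeff k := by
  rw [diagOp, finsetSum_coeff]
  simp only [coeff_C_mul, coeff_X_pow, mul_ite, mul_one, mul_zero]
  rw [Finset.sum_ite_eq]
  split_ifs with h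
  · rfl
  · rw [Finset.mem_range, not_lt] at h
    rw [coeff_eq_zero_of_natDegree_lt (by omega), mul_zero]

lemma diagOp_diagOp (l l' : ℕ → ℝ) (p : ℝ[X]) :
    diagOp l (diagOp l' p) = diagOp (fun k => l k * l' k) p := by
  ext k
  rw [diagOp_coeff, diagOp_coeff, diagOp_coeff, mul_assoc]

lemma IsMultiplierSequence.mul {l l' : ℕ → ℝ} (h : IsMultiplierSequence l)
    (h' : IsMultiplierSequence l') : IsMultiplierSequence (fun k => l k * l' k) := by
  intro p hp
  rw [← diagOp_diagOp]
  exact h _ (h' p hp)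

lemma isMultiplierSequence_geom {c r : ℝ} (hc : c ≠ 0) (hr : r ≠ 0) :
    IsMultiplierSequence (fun k => c * r ^ k) := by
  intro p hp z hz
  have h1 : diagOp (fun k => c * r ^ k) p = C c * p.comp (C r * X) := by
    ext k
    rw [diagOp_coeff, coeff_C_mul, comp_C_mul_X_coeff]
    ring
  rw [h1, map_mul, aeval_C, aeval_comp, map_mul, aeval_C, aeval_X] at hz
  have h2 : aeval ((algebraMap ℝ ℂ) r * z) p = 0 := by
    rcases mul_eq_zero.1 hz with h | h
    · exact absurd h (by simpa using hc)
    · exact h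
  have h3 := hp _ h2
  simp only [Complex.coe_algebraMap, Complex.im_ofReal_mul] at h3
  rcases mul_eq_zero.1 h3 with h | h
  · exact absurd h hr
  · exact h

/-- `1/k!` is a multiplier sequence. -/
theorem isMultiplierSequence_inv_factorial :
    IsMultiplierSequence (fun k => 1 / (k.factorial : ℝ)) := by
  intro p hp
  set n := p.natDegree with hn
  have hp0 := hp.ne_zero
  -- the reversed polynomial is stable
  set R : ℂ[X] := cx p.reverse with hR
  have hRs : UStable R := by
    intro z hz h0
    have hz0 : z ≠ 0 := by rintro rfl; simp at hz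
    haveI : Invertible z := invertibleOfNonzero hz0
    haveI : Invertible (z⁻¹) := invertibleOfNonzero (inv_ne_zero hz0)
    rw [hR, cx_eval, aeval_def] at h0
    have h1 := (eval₂_reverse_eq_zero_iff (algebraMap ℝ ℂ) (z⁻¹) p).1 (by
      rw [invOf_eq_inv, inv_inv]; exact h0)
    have h2 := hp (z⁻¹) (by rw [aeval_def]; exact h1)
    rw [Complex.inv_im, div_eq_zero_iff] at h2
    rcases h2 with h2 | h2
    · linarith
    · exact hz0 (Complex.normSq_eq_zero.1 h2)
  have hRc : ∀ k, k ≤ n → R.coeff k = ((p.coeff (n - k) : ℝ) : ℂ) := by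
    intro k hk
    rw [hR, cx_coeff, coeff_reverse, ← hn, revAt_le hk]
  -- Schur composition with (1+X)^n
  set q : ℂ[X] := (X + C 1) ^ n with hq
  have hqd : q.natDegree = n := by
    rw [hq, natDegree_pow, natDegree_X_add_C, mul_one]
  have hq0 : q ≠ 0 := pow_ne_zero _ (X_add_C_ne_zero 1)
  have hqr : ∀ r, q.eval r = 0 → r.im = 0 ∧ r.re < 0 := by
    intro r hr
    rw [hq, eval_pow, eval_add, eval_X, eval_C] at hr
    have h1 : r + 1 = 0 := by
      by_contra h
      exact pow_ne_zero _ h hr
    have h2 : r = -1 := by linear_combination h1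
    rw [h2]
    simp
  have hS := schur_comp hq0 hqr hRs
  simp only at hS
  rw [hqd] at hS
  set f : ℂ[X] := ∑ k ∈ Finset.range (n + 1),
      C (q.coeff k * ((k.factorial : ℂ) * R.coeff k)) * X ^ k with hf
  have hfc : ∀ k, k ≤ n → q.coeff k * ((k.factorial : ℂ) * R.coeff k) =
      (n.factorial : ℂ) * ((1 / ((n - k).factorial : ℝ) * p.coeff (n - k) : ℝ) : ℂ) := by
    intro k hk
    rw [hRc k hk, hq, coeff_X_add_C_pow, one_pow, one_mul]
    have h1 : ((n.choose k : ℕ) : ℂ) * (k.factorial : ℂ) * ((n - k).factorial : ℂ) =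
        (n.factorial : ℂ) := by
      exact_mod_cast Nat.choose_mul_factorial_mul_factorial hk
    have h2 : ((n - k).factorial : ℂ) ≠ 0 := by
      exact_mod_cast Nat.factorial_ne_zero _
    push_cast
    field_simp
    rw [← h1]
    ring
  -- relation with the polynomial we want
  have hrel : ∀ z : ℂ, z ≠ 0 → z ^ n * f.eval (z⁻¹) =
      (n.factorial : ℂ) * aeval z (diagOp (fun k => 1 / (k.factorial : ℝ)) p) := by
    intro z hz
    have h1 : f.eval (z⁻¹) = ∑ k ∈ Finset.range (n + 1),
        (n.factorial : ℂ) * ((1 / ((n - k).factorial : ℝ) * p.coeff (n - k) : ℝ) : ℂ) *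
          (z⁻¹) ^ k := by
      rw [hf, eval_finsetSum]
      apply Finset.sum_congr rfl
      intro k hk
      rw [eval_mul, eval_C, eval_pow, eval_X, hfc k (Nat.lt_succ_iff.1 (Finset.mem_range.1 hk))]
    have h2 : aeval z (diagOp (fun k => 1 / (k.factorial : ℝ)) p) =
        ∑ k ∈ Finset.range (n + 1), ((1 / (k.factorial : ℝ) * p.coeff k : ℝ) : ℂ) * z ^ k := by
      rw [diagOp, map_sum]
      apply Finset.sum_congr rfl
      intro k _
      rw [map_mul, aeval_C, map_pow, aeval_X]
      rfl
    rw [h1, h2, ← Finset.sum_range_reflect (fun k =>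
      ((1 / (k.factorial : ℝ) * p.coeff k : ℝ) : ℂ) * z ^ k), Finset.mul_sum, Finset.mul_sum]
    apply Finset.sum_congr rfl
    intro k hk
    have hk' := Nat.lt_succ_iff.1 (Finset.mem_range.1 hk)
    have h3 : n + 1 - 1 - k = n - k := by omega
    rw [h3]
    have h4 : z ^ n * (z⁻¹) ^ k = z ^ (n - k) := by
      rw [inv_pow, ← div_eq_mul_inv, pow_sub₀ _ hz hk', div_eq_mul_inv]
    rw [← h4]
    ring
  have hf0 : f ≠ 0 := by
    intro h0
    have h1 : f.coeff 0 = 0 := by rw [h0, coeff_zero]
    rw [hf, finsetSum_coeff] at h1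
    simp only [coeff_C_mul, coeff_X_pow, mul_ite, mul_one, mul_zero] at h1
    rw [Finset.sum_ite_eq, if_pos (by simp), hfc 0 (Nat.zero_le n), Nat.sub_zero] at h1
    have h2 : (n.factorial : ℂ) ≠ 0 := by exact_mod_cast Nat.factorial_ne_zero _
    rcases mul_eq_zero.1 h1 with h | h
    · exact h2 h
    · have h3 : (1 / (n.factorial : ℝ) * p.coeff n : ℝ) = 0 := by exact_mod_cast h
      rcases mul_eq_zero.1 h3 with h | h
      · have : (n.factorial : ℝ) ≠ 0 := by exact_mod_cast Nat.factorial_ne_zero _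
        exact absurd h (one_div_ne_zero this)
      · exact hp0 (leadingCoeff_eq_zero.1 h)
  have hfs : UStable f := hS.resolve_left hf0
  -- conclude on the lower half plane, then by conjugation
  intro z hz
  have hlow : ∀ w : ℂ, w.im < 0 → aeval w (diagOp (fun k => 1 / (k.factorial : ℝ)) p) ≠ 0 := by
    intro w hw h0
    have hw0 : w ≠ 0 := by rintro rfl; simp at hw
    have h1 := hrel w hw0
    rw [h0, mul_zero, mul_eq_zero] at h1
    rcases h1 with h1 | h1
    · exact pow_ne_zero _ hw0 h1
    · apply hfs (w⁻¹) _ h1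
      rw [Complex.inv_im]
      apply div_pos (by linarith)
      exact Complex.normSq_pos.2 hw0
  by_contra hne
  rcases lt_or_gt_of_ne hne with h1 | h1
  · exact hlow z h1 hz
  · apply hlow ((starRingEnd ℂ) z) (by simpa using h1)
    rw [aeval_conj', hz, map_zero]

lemma isMultiplierSequence_inv_factorial_pow (m : ℕ) :
    IsMultiplierSequence (fun k => 1 / (k.factorial : ℝ) ^ m) := by
  induction m with
  | zero =>
    have := isMultiplierSequence_geom (one_ne_zero) (one_ne_zero)
    simpa using this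
  | succ m ih =>
    have h := ih.mul isMultiplierSequence_inv_factorial
    have h2 : (fun k : ℕ => 1 / (k.factorial : ℝ) ^ m * (1 / (k.factorial : ℝ))) =
        (fun k : ℕ => 1 / (k.factorial : ℝ) ^ (m + 1)) := by
      funext k
      rw [one_div_mul_one_div, pow_succ]
    rw [← h2]
    exact h

end Pool.Agent.Lib.MP_38d282_an
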